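import Pool.Agent.R30.Thr.Cross

set_option autoImplicit false

/-! The thrackle and its maximality. -/

namespace Pool.Agent.R30.Thr

open Set Topology Pool.Agent.R30.C4

/-! ### arcs -/

lemma IsArc.symm {B : Set (ℝ × ℝ)} {p q : ℝ × ℝ} (h : IsArc B p q) : IsArc B q p := by
  obtain ⟨γ, hc, hi, h0, h1, him⟩ := h
  have hm : MapsTo (fun t : ℝ => 1 - t) (Icc 0 1) (Icc 0 1) := fun t ht =>
    ⟨by linarith [ht.2], by linarith [ht.1]⟩
  refine ⟨fun t => γ (1 - t), hc.comp (by fun_prop) hm, ?_, by simp [h1], by simp [h0], ?_⟩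
  · intro s hs t ht hst
    have := hi (hm hs) (hm ht) hst
    linarith
  · rw [← him]
    ext p
    constructor
    · rintro ⟨t, ht, rfl⟩; exact ⟨1 - t, hm ht, rfl⟩
    · rintro ⟨t, ht, rfl⟩; exact ⟨1 - t, hm ht, by simp⟩

lemma isArc_segment {a b : ℝ × ℝ} (h : a ≠ b) : IsArc (segment ℝ a b) a b := by
  refine ⟨fun t => (1 - t) • a + t • b, by fun_prop, ?_, by simp, by simp, ?_⟩
  · intro s _ t _ hst
    simp only at hst
    have h1 : (t - s) • (b - a) = 0 := by
      have : (t - s) • (b - a) = ((1 - t) • a + t • b) - ((1 - s) • a + s • b) := by module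
      rw [this, hst, sub_self]
    rcases smul_eq_zero.mp h1 with h2 | h2
    · linarith
    · exact absurd (sub_eq_zero.mp h2).symm h
  · rw [segment_eq_image]

/-- concatenation of two arcs with one common point -/
lemma isArc_union {B C : Set (ℝ × ℝ)} {p q r : ℝ × ℝ} (hB : IsArc B p q) (hC : IsArc C q r)
    (hBC : ∀ x, x ∈ B → x ∈ C → x = q) : IsArc (B ∪ C) p r := by
  obtain ⟨β, bc, bi, b0, b1, bim⟩ := hB
  obtain ⟨γ, cc, ci, c0, c1, cim⟩ := hC
  have mB : ∀ t : ℝ, 0 ≤ t → t ≤ 1 / 2 → (2 * t) ∈ Icc (0 : ℝ) 1 := fun t h1 h2 =>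
    ⟨by linarith, by linarith⟩
  have mC : ∀ t : ℝ, 1 / 2 ≤ t → t ≤ 1 → (2 * t - 1) ∈ Icc (0 : ℝ) 1 := fun t h1 h2 =>
    ⟨by linarith, by linarith⟩
  have eB : ∀ t : ℝ, t ≤ 1 / 2 → (if t ≤ 1 / 2 then β (2 * t) else γ (2 * t - 1)) = β (2 * t) :=
    fun t h => if_pos h
  have eC : ∀ t : ℝ, 1 / 2 ≤ t → (if t ≤ 1 / 2 then β (2 * t) else γ (2 * t - 1)) =
      γ (2 * t - 1) := by
    intro t h
    rcases h.eq_or_lt with h0 | h0
    · rw [← h0, if_pos le_rfl]; norm_num [b1, c0]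
    · exact if_neg (not_le.mpr h0)
  refine ⟨fun t => if t ≤ 1 / 2 then β (2 * t) else γ (2 * t - 1), ?_, ?_, ?_, ?_, ?_⟩
  · have hI : Icc (0 : ℝ) 1 = Icc 0 (1 / 2) ∪ Icc (1 / 2) 1 := by
      rw [Icc_union_Icc_eq_Icc] <;> norm_num
    rw [hI]
    apply ContinuousOn.union_of_isClosed _ _ isClosed_Icc isClosed_Icc
    · refine (bc.comp (f := fun t : ℝ => 2 * t) (by fun_prop) fun t ht =>
        mB t ht.1 ht.2).congr fun t ht => eB t ht.2
    · refine (cc.comp (f := fun t : ℝ => 2 * t - 1) (by fun_prop) fun t ht =>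
        mC t ht.1 ht.2).congr fun t ht => eC t ht.1
  · have cross : ∀ s ∈ Icc (0 : ℝ) 1, ∀ t ∈ Icc (0 : ℝ) 1, s ≤ 1 / 2 → 1 / 2 ≤ t →
        (if s ≤ 1 / 2 then β (2 * s) else γ (2 * s - 1)) =
        (if t ≤ 1 / 2 then β (2 * t) else γ (2 * t - 1)) → s = t := by
      intro s hs t ht h1 h2 h
      rw [eB s h1, eC t h2] at h
      have m1 : β (2 * s) ∈ B := by rw [← bim]; exact ⟨_, mB s hs.1 h1, rfl⟩
      have m2 : β (2 * s) ∈ C := by rw [h, ← cim]; exact ⟨_, mC t h2 ht.2, rfl⟩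
      have h3 := hBC _ m1 m2
      have h4 : β (2 * s) = β 1 := by rw [h3, b1]
      have h5 := bi (mB s hs.1 h1) (right_mem_Icc.mpr zero_le_one) h4
      have h6 : γ (2 * t - 1) = γ 0 := by rw [← h, h3, c0]
      have h7 := ci (mC t h2 ht.2) (left_mem_Icc.mpr zero_le_one) h6
      linarith
    intro s hs t ht h
    simp only at h
    rcases le_total s (1 / 2) with h1 | h1 <;> rcases le_total t (1 / 2) with h2 | h2
    · rw [eB s h1, eB t h2] at h
      have := bi (mB s hs.1 h1) (mB t ht.1 h2) h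
      linarith
    · exact cross s hs t ht h1 h2 h
    · exact (cross t ht s hs h2 h1 h.symm).symm
    · rw [eC s h1, eC t h2] at h
      have := ci (mC s h1 hs.2) (mC t h2 ht.2) h
      linarith
  · show (if (0 : ℝ) ≤ 1 / 2 then β (2 * 0) else γ (2 * 0 - 1)) = p
    rw [eB 0 (by norm_num)]; simpa using b0
  · show (if (1 : ℝ) ≤ 1 / 2 then β (2 * 1) else γ (2 * 1 - 1)) = r
    rw [eC 1 (by norm_num)]; norm_num [c1]
  · ext x
    constructor
    · rintro ⟨t, ht, rfl⟩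
      rcases le_total t (1 / 2) with h | h
      · left; show (if t ≤ 1 / 2 then β (2 * t) else γ (2 * t - 1)) ∈ B
        rw [eB t h, ← bim]; exact ⟨_, mB t ht.1 h, rfl⟩
      · right; show (if t ≤ 1 / 2 then β (2 * t) else γ (2 * t - 1)) ∈ C
        rw [eC t h, ← cim]; exact ⟨_, mC t h ht.2, rfl⟩
    · rintro (hx | hx)
      · rw [← bim] at hx
        obtain ⟨t, ht, rfl⟩ := hx
        refine ⟨t / 2, ⟨by linarith [ht.1], by linarith [ht.2]⟩, ?_⟩
        show (if t / 2 ≤ 1 / 2 then β (2 * (t / 2)) else γ (2 * (t / 2) - 1)) = β t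
        rw [eB _ (by linarith [ht.2])]; congr 1; ring
      · rw [← cim] at hx
        obtain ⟨t, ht, rfl⟩ := hx
        refine ⟨(t + 1) / 2, ⟨by linarith [ht.1], by linarith [ht.2]⟩, ?_⟩
        show (if (t + 1) / 2 ≤ 1 / 2 then β (2 * ((t + 1) / 2)) else γ (2 * ((t + 1) / 2) - 1)) = γ t
        rw [eC _ (by linarith [ht.1])]; congr 1; ring

/-! ### proper crossings -/

lemma CrossesAt.symm {B C : Set (ℝ × ℝ)} {p : ℝ × ℝ} (h : CrossesAt B C p) : CrossesAt C B p := by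
  obtain ⟨φ, hp, h0, hq⟩ := h
  refine ⟨φ.trans (Homeomorph.prodComm ℝ ℝ).toOpenPartialHomeomorph, ?_, ?_, ?_⟩
  · simpa using hp
  · simp [h0]
  · intro q hq'
    have hq'' : q ∈ φ.source := by simpa using hq'
    obtain ⟨h1, h2⟩ := hq q hq''
    simpa using ⟨h2, h1⟩

/-- an affine change of coordinates `(x - a y - b, c x + y + d)`-type is given by its inverse -/
lemma crossesAt_of_homeo (h : ℝ × ℝ ≃ₜ ℝ × ℝ) {B C S : Set (ℝ × ℝ)} {p : ℝ × ℝ}
    (hS : IsOpen S) (hpS : p ∈ S) (hp : h p = (0, 0))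
    (hB : ∀ q ∈ S, q ∈ B ↔ (h q).2 = 0) (hC : ∀ q ∈ S, q ∈ C ↔ (h q).1 = 0) :
    CrossesAt B C p := by
  refine ⟨h.toOpenPartialHomeomorph.restrOpen S hS, ?_, ?_, ?_⟩
  · simpa using hpS
  · simpa using hp
  · intro q hq
    have hq' : q ∈ S := by simpa using hq
    simpa using ⟨hB q hq', hC q hq'⟩

/-- the homeomorphism `(x, y) ↦ (x - a y - b, y - c)` -/
noncomputable def hom1 (a b c : ℝ) : ℝ × ℝ ≃ₜ ℝ × ℝ where
  toFun q := (q.1 - a * q.2 - b, q.2 - c)
  invFun q := (q.1 + a * (q.2 + c) + b, q.2 + c)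
  left_inv q := by apply Prod.ext <;> simp only <;> ring
  right_inv q := by apply Prod.ext <;> simp only <;> ring
  continuous_toFun := by fun_prop
  continuous_invFun := by fun_prop

/-- the homeomorphism `(x, y) ↦ (x - b, y + a x - c)` -/
noncomputable def hom2 (a b c : ℝ) : ℝ × ℝ ≃ₜ ℝ × ℝ where
  toFun q := (q.1 - b, q.2 + a * q.1 - c)
  invFun q := (q.1 + b, q.2 - a * (q.1 + b) + c)
  left_inv q := by apply Prod.ext <;> simp only <;> ring
  right_inv q := by apply Prod.ext <;> simp only <;> ring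
  continuous_toFun := by fun_prop
  continuous_invFun := by fun_prop

/-- an open box -/
lemma isOpen_box (a b c d : ℝ) : IsOpen {q : ℝ × ℝ | a < q.1 ∧ q.1 < b ∧ c < q.2 ∧ q.2 < d} := by
  have : {q : ℝ × ℝ | a < q.1 ∧ q.1 < b ∧ c < q.2 ∧ q.2 < d} = Ioo a b ×ˢ Ioo c d := by
    ext q; simp [and_assoc]
  rw [this]
  exact isOpen_Ioo.prod isOpen_Ioo

lemma x01 : CrossesAt (A 0) (A 1) (P 7) := by
  refine crossesAt_of_homeo (hom2 (-1) 8 0) (isOpen_box 7 9 7 9) ?_ ?_ ?_ ?_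
  · rw [P7]; norm_num
  · rw [P7]; norm_num [hom2]
  · intro q hq
    rw [memA0]
    simp only [mem_ofPred_eq] at hq
    show _ ↔ q.2 + -1 * q.1 - 0 = 0
    constructor
    · intro h; linarith [h.1]
    · intro h; exact ⟨by linarith, by linarith, by linarith⟩
  · intro q hq
    rw [memA1]
    simp only [mem_ofPred_eq] at hq
    show _ ↔ q.1 - 8 = 0
    constructor
    · intro h; linarith [h.1]
    · intro h; exact ⟨by linarith, by linarith, by linarith⟩

lemma x02 : CrossesAt (A 0) (A 2) (P 8) := by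
  apply CrossesAt.symm
  refine crossesAt_of_homeo (hom1 1 0 0) (isOpen_box (-1) 1 (-1) 1) ?_ ?_ ?_ ?_
  · rw [P8]; norm_num
  · rw [P8]; norm_num [hom1]
  · intro q hq
    rw [memA2]
    simp only [mem_ofPred_eq] at hq
    show _ ↔ q.2 - 0 = 0
    constructor
    · intro h; linarith [h.1]
    · intro h; exact ⟨by linarith, by linarith, by linarith⟩
  · intro q hq
    rw [memA0]
    simp only [mem_ofPred_eq] at hq
    show _ ↔ q.1 - 1 * q.2 - 0 = 0
    constructor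
    · intro h; linarith [h.1]
    · intro h; exact ⟨by linarith, by linarith, by linarith⟩

lemma x12 : CrossesAt (A 1) (A 2) (P 9) := by
  apply CrossesAt.symm
  refine crossesAt_of_homeo (hom1 0 8 0) (isOpen_box 7 9 (-1) 1) ?_ ?_ ?_ ?_
  · rw [P9]; norm_num
  · rw [P9]; norm_num [hom1]
  · intro q hq
    rw [memA2]
    simp only [mem_ofPred_eq] at hq
    show _ ↔ q.2 - 0 = 0
    constructor
    · intro h; linarith [h.1]
    · intro h; exact ⟨by linarith, by linarith, by linarith⟩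
  · intro q hq
    rw [memA1]
    simp only [mem_ofPred_eq] at hq
    show _ ↔ q.1 - 0 * q.2 - 8 = 0
    constructor
    · intro h; linarith [h.1]
    · intro h; exact ⟨by linarith, by linarith, by linarith⟩

lemma x13 : CrossesAt (A 1) (A 3) (P 10) := by
  apply CrossesAt.symm
  refine crossesAt_of_homeo (hom2 1 8 20) (isOpen_box 7 9 11 13) ?_ ?_ ?_ ?_
  · rw [P10]; norm_num
  · rw [P10]; norm_num [hom2]
  · intro q hq
    rw [memA3]
    simp only [mem_ofPred_eq] at hq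
    show _ ↔ q.2 + 1 * q.1 - 20 = 0
    constructor
    · rintro (h | h)
      · linarith [h.2.2]
      · linarith [h.1]
    · intro h; exact Or.inr ⟨by linarith, by linarith, by linarith⟩
  · intro q hq
    rw [memA1]
    simp only [mem_ofPred_eq] at hq
    show _ ↔ q.1 - 8 = 0
    constructor
    · intro h; linarith [h.1]
    · intro h; exact ⟨by linarith, by linarith, by linarith⟩

/-! ### the intersections -/

lemma i01 {p : ℝ × ℝ} (h : p ∈ A 0) (h' : p ∈ A 1) : p = P 7 := by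
  rw [memA0] at h; rw [memA1] at h'
  rw [P7]; exact Prod.ext (by linarith [h'.1]) (by linarith [h.1, h'.1])
lemma i02 {p : ℝ × ℝ} (h : p ∈ A 0) (h' : p ∈ A 2) : p = P 8 := by
  rw [memA0] at h; rw [memA2] at h'
  rw [P8]; exact Prod.ext (by linarith [h.1, h'.1]) (by linarith [h.1, h'.1])
lemma i12 {p : ℝ × ℝ} (h : p ∈ A 1) (h' : p ∈ A 2) : p = P 9 := by
  rw [memA1] at h; rw [memA2] at h'
  rw [P9]; exact Prod.ext (by linarith [h.1]) (by linarith [h'.1])
lemma i03 {p : ℝ × ℝ} (h : p ∈ A 0) (h' : p ∈ A 3) : p = P 0 := by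
  rw [memA0] at h; rw [memA3] at h'
  rcases h' with h' | h'
  · rw [P0]; exact Prod.ext (by linarith [h.1, h'.1]) (by linarith [h.1, h'.1])
  · exfalso; linarith [h.1, h.2.2, h'.1]
lemma i13 {p : ℝ × ℝ} (h : p ∈ A 1) (h' : p ∈ A 3) : p = P 10 := by
  rw [memA1] at h; rw [memA3] at h'
  rcases h' with h' | h'
  · exfalso; linarith [h.1, h'.2.2]
  · rw [P10]; exact Prod.ext (by linarith [h.1]) (by linarith [h.1, h'.1])
lemma i23 {p : ℝ × ℝ} (h : p ∈ A 2) (h' : p ∈ A 3) : p = P 5 := by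
  rw [memA2] at h; rw [memA3] at h'
  rcases h' with h' | h'
  · exfalso; linarith [h.1, h.2.1, h'.1]
  · rw [P5]; exact Prod.ext (by linarith [h.1, h'.1]) (by linarith [h.1])

lemma m0 (i : ℕ) (hi : i = 0 ∨ i = 1 ∨ i = 7 ∨ i = 8) : P i ∈ A 0 := by
  rw [memA0]
  rcases hi with rfl | rfl | rfl | rfl
  · rw [P0]; norm_num
  · rw [P1]; norm_num
  · rw [P7]; norm_num
  · rw [P8]; norm_num
lemma m1 (i : ℕ) (hi : i = 2 ∨ i = 3 ∨ i = 7 ∨ i = 9 ∨ i = 10) : P i ∈ A 1 := by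
  rw [memA1]
  rcases hi with rfl | rfl | rfl | rfl | rfl
  · rw [P2]; norm_num
  · rw [P3]; norm_num
  · rw [P7]; norm_num
  · rw [P9]; norm_num
  · rw [P10]; norm_num
lemma m2 (i : ℕ) (hi : i = 4 ∨ i = 5 ∨ i = 8 ∨ i = 9) : P i ∈ A 2 := by
  rw [memA2]
  rcases hi with rfl | rfl | rfl | rfl
  · rw [P4]; norm_num
  · rw [P5]; norm_num
  · rw [P8]; norm_num
  · rw [P9]; norm_num
lemma m3 (i : ℕ) (hi : i = 0 ∨ i = 5 ∨ i = 10) : P i ∈ A 3 := by
  rw [memA3]
  rcases hi with rfl | rfl | rfl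
  · rw [P0]; norm_num
  · rw [P5]; norm_num
  · rw [P10]; norm_num

/-! ### the graph and the drawing -/

/-- the edges -/
def E (k : ℕ) : Sym2 (Fin 6) :=
  if k = 0 then s(0, 1) else if k = 1 then s(2, 3) else if k = 2 then s(4, 5) else s(0, 5)

/-- the graph: the path `1 - 0 - 5 - 4` and the edge `2 - 3` -/
def G : SimpleGraph (Fin 6) where
  Adj u v := ∃ k < 4, s(u, v) = E k
  symm := ⟨fun u v ⟨k, hk, h⟩ => ⟨k, hk, by rw [Sym2.eq_swap]; exact h⟩⟩
  loopless := ⟨by decide⟩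

instance : DecidableRel G.Adj := fun u v => by unfold G; infer_instance

lemma mem_edge {e : Sym2 (Fin 6)} : e ∈ G.edgeSet ↔ ∃ k < 4, e = E k := by
  induction e using Sym2.ind with
  | _ u v => exact Iff.rfl

/-- the arcs by edge -/
noncomputable def arcG (e : Sym2 (Fin 6)) : Set (ℝ × ℝ) :=
  if e = E 0 then A 0 else if e = E 1 then A 1 else if e = E 2 then A 2 else A 3

lemma arcG_E {k : ℕ} (hk : k < 4) : arcG (E k) = A k := by
  have h10 : E 1 ≠ E 0 := by decide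
  have h20 : E 2 ≠ E 0 := by decide
  have h21 : E 2 ≠ E 1 := by decide
  have h30 : E 3 ≠ E 0 := by decide
  have h31 : E 3 ≠ E 1 := by decide
  have h32 : E 3 ≠ E 2 := by decide
  interval_cases k <;> simp [arcG, *]

lemma P_inj6 : ∀ i < 6, ∀ j < 6, P i = P j → i = j := by
  intro i hi j hj h
  have h1 := congrArg Prod.fst h
  have h2 := congrArg Prod.snd h
  simp only [P, Int.cast_inj] at h1 h2
  have : ∀ i < 6, ∀ j < 6, cx i = cx j → cy i = cy j → i = j := by decide +kernel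
  exact this i hi j hj h1 h2

lemma arcs_E : ∀ k < 4, ∀ u v : Fin 6, s(u, v) = E k → IsArc (A k) (P u) (P v) := by
  have ne : ∀ {i j : ℕ}, i < 6 → j < 6 → i ≠ j → P i ≠ P j := fun hi hj h e =>
    h (P_inj6 _ hi _ hj e)
  have a0 : IsArc (A 0) (P 0) (P 1) := isArc_segment (ne (by norm_num) (by norm_num) (by norm_num))
  have a1 : IsArc (A 1) (P 2) (P 3) := isArc_segment (ne (by norm_num) (by norm_num) (by norm_num))
  have a2 : IsArc (A 2) (P 4) (P 5) := isArc_segment (ne (by norm_num) (by norm_num) (by norm_num))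
  have a3 : IsArc (A 3) (P 0) (P 5) := by
    show IsArc (segment ℝ (P 0) (P 6) ∪ segment ℝ (P 6) (P 5)) (P 0) (P 5)
    refine isArc_union (isArc_segment ?_) (isArc_segment ?_) ?_
    · rw [P0, P6]; norm_num
    · rw [P6, P5]; norm_num
    · intro x h1 h2
      rw [P0, P6] at h1
      rw [P6, P5] at h2
      obtain ⟨t, t0, t1, hx, hy⟩ := seg_mem h1
      obtain ⟨s, s0, s1, hx', hy'⟩ := seg_mem h2
      simp only at hx hy hx' hy'
      rw [P6]
      exact Prod.ext (by simp only; linarith) (by simp only; linarith)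
  intro k hk u v h
  interval_cases k
  · have h : s(u, v) = s(0, 1) := h
    rcases Sym2.eq_iff.mp h with ⟨rfl, rfl⟩ | ⟨rfl, rfl⟩
    · exact a0
    · exact a0.symm
  · have h : s(u, v) = s(2, 3) := h
    rcases Sym2.eq_iff.mp h with ⟨rfl, rfl⟩ | ⟨rfl, rfl⟩
    · exact a1
    · exact a1.symm
  · have h : s(u, v) = s(4, 5) := h
    rcases Sym2.eq_iff.mp h with ⟨rfl, rfl⟩ | ⟨rfl, rfl⟩
    · exact a2
    · exact a2.symm
  · have h : s(u, v) = s(0, 5) := h
    rcases Sym2.eq_iff.mp h with ⟨rfl, rfl⟩ | ⟨rfl, rfl⟩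
    · exact a3
    · exact a3.symm

/-- vertices on arcs are ends -/
lemma vertex_on : ∀ k < 4, ∀ w : Fin 6, P w ∈ A k → w ∈ E k := by
  intro k hk w h
  have hw := w.2
  have key : ∀ i < 6, P i ∈ A k → (k = 0 ∧ (i = 0 ∨ i = 1)) ∨ (k = 1 ∧ (i = 2 ∨ i = 3)) ∨
      (k = 2 ∧ (i = 4 ∨ i = 5)) ∨ (k = 3 ∧ (i = 0 ∨ i = 5)) := by
    intro i hi h
    interval_cases k
    · rw [memA0] at h
      interval_cases i
      · tauto
      · tauto
      · rw [P2] at h; norm_num at h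
      · rw [P3] at h; norm_num at h
      · rw [P4] at h; norm_num at h
      · rw [P5] at h; norm_num at h
    · rw [memA1] at h
      interval_cases i
      · rw [P0] at h; norm_num at h
      · rw [P1] at h; norm_num at h
      · tauto
      · tauto
      · rw [P4] at h; norm_num at h
      · rw [P5] at h; norm_num at h
    · rw [memA2] at h
      interval_cases i
      · rw [P0] at h; norm_num at h
      · rw [P1] at h; norm_num at h
      · rw [P2] at h; norm_num at h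
      · rw [P3] at h; norm_num at h
      · tauto
      · tauto
    · rw [memA3] at h
      interval_cases i
      · tauto
      · rw [P1] at h; norm_num at h
      · rw [P2] at h; norm_num at h
      · rw [P3] at h; norm_num at h
      · rw [P4] at h; norm_num at h
      · tauto
  have hfin : ∀ w : Fin 6, ∀ k < 4, ((k = 0 ∧ ((w : ℕ) = 0 ∨ (w : ℕ) = 1)) ∨
      (k = 1 ∧ ((w : ℕ) = 2 ∨ (w : ℕ) = 3)) ∨ (k = 2 ∧ ((w : ℕ) = 4 ∨ (w : ℕ) = 5)) ∨
      (k = 3 ∧ ((w : ℕ) = 0 ∨ (w : ℕ) = 5))) → w ∈ E k := by decide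
  exact hfin w k hk (key w hw h)

/-- The drawing. -/
noncomputable def D : Drawing G where
  pos v := P v
  arc := arcG
  pos_injective := fun u v h => Fin.ext (P_inj6 _ u.2 _ v.2 h)
  arc_isArc := by
    rintro u v ⟨k, hk, h⟩
    rw [h, arcG_E hk]
    exact arcs_E k hk u v h
  arc_avoids := by
    rintro u v w ⟨k, hk, h⟩ hm
    rw [h, arcG_E hk] at hm
    have := vertex_on k hk w hm
    rw [← h] at this
    exact Sym2.mem_iff.mp this

lemma D_pos (v : Fin 6) : D.pos v = P v := rfl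
lemma D_arc {k : ℕ} (hk : k < 4) : D.arc (E k) = A k := arcG_E hk

theorem D_thrackle : D.IsThrackle := by
  have key : ∀ j < 4, ∀ k < 4, j < k → ∃ p, A j ∩ A k = {p} ∧
      ((∃ v : Fin 6, v ∈ E j ∧ v ∈ E k ∧ p = P v) ∨ CrossesAt (A j) (A k) p) := by
    have mk : ∀ {B C : Set (ℝ × ℝ)} {p : ℝ × ℝ}, p ∈ B → p ∈ C → (∀ {q}, q ∈ B → q ∈ C → q = p) →
        B ∩ C = {p} := by
      intro B C p h1 h2 h3
      ext q; simp only [mem_inter_iff, mem_singleton_iff]
      constructor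
      · rintro ⟨a, b⟩; exact h3 a b
      · rintro rfl; exact ⟨h1, h2⟩
    intro j hj k hk hjk
    interval_cases k <;> interval_cases j
    · exact ⟨P 7, mk (m0 _ (by simp)) (m1 _ (by simp)) i01, Or.inr x01⟩
    · exact ⟨P 8, mk (m0 _ (by simp)) (m2 _ (by simp)) i02, Or.inr x02⟩
    · exact ⟨P 9, mk (m1 _ (by simp)) (m2 _ (by simp)) i12, Or.inr x12⟩
    · exact ⟨P 0, mk (m0 _ (by simp)) (m3 _ (by simp)) i03, Or.inl ⟨0, by decide, by decide, rfl⟩⟩
    · exact ⟨P 10, mk (m1 _ (by simp)) (m3 _ (by simp)) i13, Or.inr x13⟩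
    · exact ⟨P 5, mk (m2 _ (by simp)) (m3 _ (by simp)) i23, Or.inl ⟨5, by decide, by decide, rfl⟩⟩
  intro e he f hf hne
  obtain ⟨j, hj, rfl⟩ := mem_edge.mp he
  obtain ⟨k, hk, rfl⟩ := mem_edge.mp hf
  rw [D_arc hj, D_arc hk]
  rcases lt_trichotomy j k with h | h | h
  · exact key j hj k hk h
  · subst h; exact absurd rfl hne
  · obtain ⟨p, h1, h2⟩ := key k hk j hj h
    refine ⟨p, by rw [inter_comm]; exact h1, ?_⟩
    rcases h2 with ⟨v, h3, h4, h5⟩ | h2
    · exact Or.inl ⟨v, h4, h3, h5⟩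
    · exact Or.inr h2.symm

/-! ### maximality -/

lemma end_on : ∀ k < 4, ∀ w : Fin 6, w ∈ E k → P w ∈ A k := by
  intro k hk w hw
  interval_cases k
  · rcases Sym2.mem_iff.mp (show w ∈ s(0, 1) from hw) with rfl | rfl
    · exact m0 0 (by simp)
    · exact m0 1 (by simp)
  · rcases Sym2.mem_iff.mp (show w ∈ s(2, 3) from hw) with rfl | rfl
    · exact m1 2 (by simp)
    · exact m1 3 (by simp)
  · rcases Sym2.mem_iff.mp (show w ∈ s(4, 5) from hw) with rfl | rfl
    · exact m2 4 (by simp)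
    · exact m2 5 (by simp)
  · rcases Sym2.mem_iff.mp (show w ∈ s(0, 5) from hw) with rfl | rfl
    · exact m3 0 (by simp)
    · exact m3 5 (by simp)

/-- one edge is hit -/
def C1 (u v : Fin 6) (k : ℕ) : Prop := ∀ j < 4, (u ∉ E j ∧ v ∉ E j) ↔ j = k
/-- two edges are hit -/
def C2 (u v : Fin 6) (k l : ℕ) : Prop := ∀ j < 4, (u ∉ E j ∧ v ∉ E j) ↔ (j = k ∨ j = l)
/-- no label walk with one step -/
def N1 (u v : Fin 6) (k : ℕ) : Prop :=
  ∀ x ∈ vlL, ∀ y ∈ vlL, x.1 = (u : ℕ) → y.1 = (v : ℕ) → (k, x.2, y.2) ∉ trL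
/-- no label walk with two steps -/
def N2 (u v : Fin 6) (k l : ℕ) : Prop :=
  ∀ x ∈ vlL, ∀ y ∈ vlL, x.1 = (u : ℕ) → y.1 = (v : ℕ) → ∀ z ∈ trL, ∀ z' ∈ trL,
        z.2.1 = x.2 → z'.2.1 = z.2.2 → z'.2.2 = y.2 →
        ¬ ((z.1 = k ∧ z'.1 = l) ∨ (z.1 = l ∧ z'.1 = k))
/-- labels at the two vertices -/
def S2 (u v : Fin 6) : Prop := ∀ x ∈ vlL, (x.1 = (u : ℕ) ∨ x.1 = (v : ℕ)) → x.2 = 0 ∨ x.2 = 2

instance (u v : Fin 6) (k : ℕ) : Decidable (C1 u v k) := by unfold C1; infer_instance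
instance (u v : Fin 6) (k l : ℕ) : Decidable (C2 u v k l) := by unfold C2; infer_instance
instance (u v : Fin 6) (k : ℕ) : Decidable (N1 u v k) := by unfold N1; infer_instance
instance (u v : Fin 6) (k l : ℕ) : Decidable (N2 u v k l) := by unfold N2; infer_instance
instance (u v : Fin 6) : Decidable (S2 u v) := by unfold S2; infer_instance

/-- finite case analysis -/
lemma comb : ∀ u v : Fin 6, u ≠ v → ¬ G.Adj u v →
    (∃ k < 4, C1 u v k ∧ N1 u v k) ∨
    (∃ k < 4, ∃ l < 4, k < l ∧ C2 u v k l ∧ N2 u v k l ∧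
      ((k = 0 ∧ l = 3) ∨ (k = 2 ∧ l = 3) ∨ (k = 1 ∧ l = 3 ∧ S2 u v))) := by
  decide +kernel

lemma k_half : ∀ x ∈ cellsL, (x.2.2.2 = 0 ∨ x.2.2.2 = 2) →
    oz 6 5 x.1 ≤ 0 ∧ oz 6 5 x.2.1 ≤ 0 ∧ oz 6 5 x.2.2.1 ≤ 0 := by decide +kernel

lemma R_half {L : ℕ} (hL : L = 0 ∨ L = 2) {p : ℝ × ℝ} (hp : p ∈ X.R L) :
    ori (P 6) (P 5) p ≤ 0 := by
  rcases hp with ⟨a, b, c, h, hl, hm⟩ | ⟨hl, -⟩
  · have hl' : lab a b c = L := hl
    have h' := lab_mem h
    rw [hl'] at h'
    obtain ⟨k1, k2, k3⟩ := k_half _ h' hL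
    simp only at k1 k2 k3
    refine tri_le (cell_pos _ _ _ h) ?_ ?_ ?_ hm
    · rw [ori_P]; exact_mod_cast k1
    · rw [ori_P]; exact_mod_cast k2
    · rw [ori_P]; exact_mod_cast k3
  · have : 1 = L := hl
    omega

theorem D_maximal : D.IsMaximalThrackle := by
  refine ⟨D_thrackle, ?_⟩
  intro u v huv hnadj D' hpos harc hth
  have hposw : ∀ w, D'.pos w = P w := fun w => by rw [hpos]; rfl
  have hadj : (G ⊔ SimpleGraph.edge u v).Adj u v := by
    right
    rw [SimpleGraph.edge_adj]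
    exact ⟨Or.inl ⟨rfl, rfl⟩, huv⟩
  have hgmem : s(u, v) ∈ (G ⊔ SimpleGraph.edge u v).edgeSet := hadj
  obtain ⟨γ, hcont, hinj, h0, h1, himg⟩ := D'.arc_isArc u v hadj
  rw [hposw] at h0 h1
  have z01 : (0 : ℝ) ∈ Icc (0 : ℝ) 1 := left_mem_Icc.mpr zero_le_one
  have o01 : (1 : ℝ) ∈ Icc (0 : ℝ) 1 := right_mem_Icc.mpr zero_le_one
  have hEmem : ∀ k < 4, E k ∈ G.edgeSet := fun k hk => mem_edge.mpr ⟨k, hk, rfl⟩
  have hEarc : ∀ k < 4, D'.arc (E k) = A k := fun k hk => by rw [harc _ (hEmem k hk), D_arc hk]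
  -- the relation of the new arc to the old edges
  have hrel : ∀ k < 4, ∃ p, A k ∩ γ '' Icc 0 1 = {p} ∧
      ((∃ w, w ∈ E k ∧ w ∈ s(u, v) ∧ p = D'.pos w) ∨ CrossesAt (A k) (γ '' Icc 0 1) p) := by
    intro k hk
    have hne : E k ≠ s(u, v) := by
      intro h
      apply hnadj
      have := hEmem k hk
      rw [h] at this
      exact this
    have := hth (E k) (SimpleGraph.edgeSet_mono le_sup_left (hEmem k hk)) s(u, v) hgmem hne
    rwa [hEarc k hk, ← himg] at this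
  -- vertices on the new arc
  have hvert : ∀ t ∈ Ioo (0 : ℝ) 1, ∀ w : Fin 6, γ t ≠ P w := by
    intro t ht w hw
    have ht' := Ioo_subset_Icc_self ht
    have hm : D'.pos w ∈ D'.arc s(u, v) := by
      rw [hposw, ← hw, ← himg]; exact ⟨t, ht', rfl⟩
    rcases D'.arc_avoids u v w hadj hm with rfl | rfl
    · rw [← h0] at hw
      exact ht.1.ne' (hinj ht' z01 hw)
    · rw [← h1] at hw
      exact ht.2.ne (hinj ht' o01 hw)
  have hvert' : ∀ t ∈ Ioo (0 : ℝ) 1, ∀ w < 6, γ t ≠ P w := fun t ht w hw => hvert t ht ⟨w, hw⟩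
  -- edges with a common end are avoided
  have hfree : ∀ k < 4, ¬ (u ∉ E k ∧ v ∉ E k) → ∀ t ∈ Ioo (0 : ℝ) 1, γ t ∉ A k := by
    intro k hk hn t ht hm
    obtain ⟨p, hp, -⟩ := hrel k hk
    have ht' := Ioo_subset_Icc_self ht
    have e1 : γ t = p := by
      have : γ t ∈ A k ∩ γ '' Icc 0 1 := ⟨hm, ⟨t, ht', rfl⟩⟩
      rw [hp] at this; exact this
    rw [not_and_or, not_not, not_not] at hn
    rcases hn with hn | hn
    · have : P u ∈ A k ∩ γ '' Icc 0 1 := ⟨end_on k hk u hn, ⟨0, z01, h0⟩⟩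
      rw [hp] at this
      have e2 : P u = p := this
      exact hvert t ht u (by rw [e1, e2])
    · have : P v ∈ A k ∩ γ '' Icc 0 1 := ⟨end_on k hk v hn, ⟨1, o01, h1⟩⟩
      rw [hp] at this
      have e2 : P v = p := this
      exact hvert t ht v (by rw [e1, e2])
  -- the other edges are hit once
  have hhit : ∀ k < 4, (u ∉ E k ∧ v ∉ E k) → ∃ t₀ ∈ Ioo (0 : ℝ) 1, γ t₀ ∈ A k ∧
      (∀ t ∈ Icc (0 : ℝ) 1, γ t ∈ A k → t = t₀) ∧ CrossesAt (A k) (γ '' Icc 0 1) (γ t₀) := by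
    intro k hk ⟨hu, hv⟩
    obtain ⟨p, hp, hx⟩ := hrel k hk
    have hpm : p ∈ A k ∩ γ '' Icc 0 1 := by rw [hp]; rfl
    obtain ⟨hpA, t₀, ht₀, rfl⟩ := hpm
    have hx' : CrossesAt (A k) (γ '' Icc 0 1) (γ t₀) := by
      rcases hx with ⟨w, hw, hw', -⟩ | hx
      · exfalso
        rcases Sym2.mem_iff.mp hw' with rfl | rfl
        · exact hu hw
        · exact hv hw
      · exact hx
    refine ⟨t₀, ⟨?_, ?_⟩, hpA, ?_, hx'⟩
    · rcases ht₀.1.eq_or_lt with h | h
      · exfalso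
        rw [← h, h0] at hpA
        exact hu (vertex_on k hk u hpA)
      · exact h
    · rcases ht₀.2.eq_or_lt with h | h
      · exfalso
        rw [h, h1] at hpA
        exact hv (vertex_on k hk v hpA)
      · exact h
    · intro t ht hm
      have : γ t ∈ A k ∩ γ '' Icc 0 1 := ⟨hm, ⟨t, ht, rfl⟩⟩
      rw [hp] at this
      exact hinj ht ht₀ this
  -- labels of free pieces
  have hpiece : ∀ a b : ℝ, 0 ≤ a → b ≤ 1 → a < b → (∀ t ∈ Ioo a b, ∀ j < 4, γ t ∉ A j) →
      ∃ L, ∀ t ∈ Icc a b, γ t ∈ X.R L := by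
    intro a b ha hb hab hfr
    have hsub : Ioo a b ⊆ Icc (0 : ℝ) 1 := fun t ht =>
      ⟨ha.trans ht.1.le, ht.2.le.trans hb⟩
    have hsub' : Icc a b ⊆ Icc (0 : ℝ) 1 := fun t ht => ⟨ha.trans ht.1, ht.2.trans hb⟩
    obtain ⟨L, hL⟩ := X.exists_label (γ ((a + b) / 2))
    have hC : IsPreconnected (γ '' Ioo a b) := isPreconnected_Ioo.image _ (hcont.mono hsub)
    have hsubR : γ '' Ioo a b ⊆ X.R L := by
      refine X.const hC ?_ ?_ ⟨_, ⟨(a + b) / 2, ⟨by linarith, by linarith⟩, rfl⟩, hL⟩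
      · rintro p ⟨t, ht, rfl⟩ hp
        obtain ⟨j, hj, hj'⟩ := pts_on hp
        exact hfr t ht j hj hj'
      · rintro x y ⟨j, hj⟩ p ⟨t, ht, rfl⟩ hp
        obtain ⟨g1, g2⟩ := real_sub hj
        exact hfr t ht j g2 (g1 hp)
    refine ⟨L, ?_⟩
    have hcl : γ '' Icc a b ⊆ closure (γ '' Ioo a b) := by
      have h : closure (Ioo a b) = Icc a b := closure_Ioo hab.ne
      have := ContinuousOn.image_closure (s := Ioo a b) (f := γ)
        (by rw [h]; exact hcont.mono hsub')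
      rwa [h] at this
    intro t ht
    exact closure_minimal hsubR (X.isClosed_R L) (hcl ⟨t, ht, rfl⟩)
  have hlab0 : ∀ L b, 0 < b → (∀ t ∈ Icc 0 b, γ t ∈ X.R L) → ((u : ℕ), L) ∈ vlL := by
    intro L b hb h
    have := h 0 ⟨le_rfl, hb.le⟩
    rw [h0] at this
    exact label_at (by omega) this
  have hlab1 : ∀ L a, a < 1 → (∀ t ∈ Icc a 1, γ t ∈ X.R L) → ((v : ℕ), L) ∈ vlL := by
    intro L a ha h
    have := h 1 ⟨ha.le, le_rfl⟩
    rw [h1] at this
    exact label_at (by omega) this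
  -- a crossing between two free pieces
  have hstep : ∀ k < 4, ∀ a t₀ b : ℝ, 0 ≤ a → a < t₀ → t₀ < b → b ≤ 1 → γ t₀ ∈ A k →
      (∀ j < 4, j ≠ k → γ t₀ ∉ A j) → CrossesAt (A k) (γ '' Icc 0 1) (γ t₀) →
      ∀ L₁ L₂, (∀ t ∈ Icc a t₀, γ t ∈ X.R L₁) → (∀ t ∈ Icc t₀ b, γ t ∈ X.R L₂) →
      (k, L₁, L₂) ∈ trL := by
    intro k hk a t₀ b ha hat htb hb hon hoff hx L₁ L₂ hL1 hL2
    have ht : t₀ ∈ Ioo (0 : ℝ) 1 := ⟨by linarith, by linarith⟩
    refine cross_label hcont hinj hk ht (δ := min (t₀ - a) (b - t₀))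
      (lt_min (by linarith) (by linarith)) hon hoff (fun w hw => hvert' t₀ ht w hw) hx ?_ ?_
      (hL1 _ ⟨hat.le, le_rfl⟩) (hL2 _ ⟨le_rfl, htb.le⟩)
    · intro t _ h2 h3
      have := min_le_left (t₀ - a) (b - t₀)
      exact hL1 t ⟨by linarith, h2.le⟩
    · intro t _ h2 h3
      have := min_le_right (t₀ - a) (b - t₀)
      exact hL2 t ⟨h2.le, by linarith⟩
  rcases comb u v huv hnadj with ⟨k, hk, hS, hno⟩ | ⟨k, hk, l, hl, hkl, hS, hno, hcase⟩
  · -- one crossing
    obtain ⟨t₀, ht₀, hon, huniq, hx⟩ := hhit k hk ((hS k hk).mpr rfl)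
    have hav : ∀ t ∈ Ioo (0 : ℝ) 1, t ≠ t₀ → ∀ j < 4, γ t ∉ A j := by
      intro t ht hne j hj hm
      by_cases hjk : j = k
      · subst hjk; exact hne (huniq t (Ioo_subset_Icc_self ht) hm)
      · exact hfree j hj (fun h => hjk ((hS j hj).mp h)) t ht hm
    obtain ⟨L₁, hL₁⟩ := hpiece 0 t₀ le_rfl ht₀.2.le ht₀.1
      (fun t ht => hav t ⟨ht.1, ht.2.trans ht₀.2⟩ ht.2.ne)
    obtain ⟨L₂, hL₂⟩ := hpiece t₀ 1 ht₀.1.le le_rfl ht₀.2
      (fun t ht => hav t ⟨ht₀.1.trans ht.1, ht.2⟩ ht.1.ne')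
    have htr := hstep k hk 0 t₀ 1 le_rfl ht₀.1 ht₀.2 le_rfl hon
      (fun j hj hjk => hfree j hj (fun h => hjk ((hS j hj).mp h)) t₀ ht₀) hx L₁ L₂ hL₁ hL₂
    exact hno _ (hlab0 L₁ t₀ ht₀.1 hL₁) _ (hlab1 L₂ t₀ ht₀.2 hL₂) rfl rfl htr
  · -- two crossings
    obtain ⟨s, hs, hsn, hsu, hsx⟩ := hhit k hk ((hS k hk).mpr (Or.inl rfl))
    obtain ⟨t, ht, htn, htu, htx⟩ := hhit l hl ((hS l hl).mpr (Or.inr rfl))
    have hav : ∀ r ∈ Ioo (0 : ℝ) 1, r ≠ s → r ≠ t → ∀ j < 4, γ r ∉ A j := by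
      intro r hr h1 h2 j hj hm
      by_cases hjk : j = k
      · subst hjk; exact h1 (hsu r (Ioo_subset_Icc_self hr) hm)
      · by_cases hjl : j = l
        · subst hjl; exact h2 (htu r (Ioo_subset_Icc_self hr) hm)
        · exact hfree j hj (fun h => by rcases (hS j hj).mp h with h | h <;> contradiction) r hr hm
    rcases lt_trichotomy s t with hst | hst | hst
    · obtain ⟨L₀, hL₀⟩ := hpiece 0 s le_rfl hs.2.le hs.1
        (fun r hr => hav r ⟨hr.1, hr.2.trans hs.2⟩ hr.2.ne (hr.2.trans hst).ne)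
      obtain ⟨L₁, hL₁⟩ := hpiece s t hs.1.le ht.2.le hst
        (fun r hr => hav r ⟨hs.1.trans hr.1, hr.2.trans ht.2⟩ hr.1.ne' hr.2.ne)
      obtain ⟨L₂, hL₂⟩ := hpiece t 1 ht.1.le le_rfl ht.2
        (fun r hr => hav r ⟨ht.1.trans hr.1, hr.2⟩ (hst.trans hr.1).ne' hr.1.ne')
      have e1 := hstep k hk 0 s t le_rfl hs.1 hst ht.2.le hsn (fun j hj hjk hm => by
        by_cases hjl : j = l
        · subst hjl; exact hst.ne (htu s (Ioo_subset_Icc_self hs) hm)
        · exact hfree j hj (fun h => by rcases (hS j hj).mp h with h | h <;> contradiction) s hs hm)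
        hsx L₀ L₁ hL₀ hL₁
      have e2 := hstep l hl s t 1 hs.1.le hst ht.2 le_rfl htn (fun j hj hjl hm => by
        by_cases hjk : j = k
        · subst hjk; exact hst.ne' (hsu t (Ioo_subset_Icc_self ht) hm)
        · exact hfree j hj (fun h => by rcases (hS j hj).mp h with h | h <;> contradiction) t ht hm)
        htx L₁ L₂ hL₁ hL₂
      exact hno _ (hlab0 L₀ s hs.1 hL₀) _ (hlab1 L₂ t ht.2 hL₂) rfl rfl _ e1 _ e2 rfl rfl rfl
        (Or.inl ⟨rfl, rfl⟩)
    · -- both at the same point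
      subst hst
      rcases hcase with ⟨rfl, rfl⟩ | ⟨rfl, rfl⟩ | ⟨rfl, rfl, hlabs⟩
      · exact hvert s hs 0 (i03 hsn htn)
      · exact hvert s hs 5 (i23 hsn htn)
      · have hp : γ s = P 10 := i13 hsn htn
        obtain ⟨L₀, hL₀⟩ := hpiece 0 s le_rfl hs.2.le hs.1
          (fun r hr => hav r ⟨hr.1, hr.2.trans hs.2⟩ hr.2.ne hr.2.ne)
        obtain ⟨L₁, hL₁⟩ := hpiece s 1 hs.1.le le_rfl hs.2
          (fun r hr => hav r ⟨hs.1.trans hr.1, hr.2⟩ hr.1.ne' hr.1.ne')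
        have l0 := hlabs _ (hlab0 L₀ s hs.1 hL₀) (Or.inl rfl)
        have l1 := hlabs _ (hlab1 L₁ s hs.2 hL₁) (Or.inr rfl)
        have eo : ∀ q : ℝ × ℝ, ori (P 6) (P 5) q = 20 * (q.1 + q.2 - 20) := by
          intro q; rw [P6, P5]; simp only [ori]; ring
        have hUo : IsOpen {q : ℝ × ℝ | 0 < q.1 ∧ q.1 < 20} :=
          (isOpen_lt continuous_const continuous_fst).inter
            (isOpen_lt continuous_fst continuous_const)
        have hN := nhds_of_cross (γ := γ) hcont hinj (A := A 3) (t₀ := s) (δ := 1) hs one_pos htx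
          (R := {q | ori (P 6) (P 5) q ≤ 0}) (U := {q : ℝ × ℝ | 0 < q.1 ∧ q.1 < 20})
          (isClosed_le (ori_cont _ _) continuous_const)
          (hUo.mem_nhds (by rw [hp, P10]; norm_num))
          (by
            intro r hr _ _
            rcases le_total r s with h | h
            · exact R_half l0 (hL₀ r ⟨hr.1, h⟩)
            · exact R_half l1 (hL₁ r ⟨h, hr.2⟩))
          (by
            intro C hC hCU hCA hne
            have hsub : C ⊆ {q | ori (P 6) (P 5) q < 0} ∪ {q | 0 < ori (P 6) (P 5) q} := by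
              intro q hq
              have hqU := hCU hq
              simp only [mem_ofPred_eq] at hqU
              rcases lt_trichotomy (ori (P 6) (P 5) q) 0 with h | h | h
              · exact Or.inl h
              · exfalso
                apply Set.disjoint_left.mp hCA hq
                rw [memA3]
                rw [eo] at h
                exact Or.inr ⟨by linarith, hqU.1.le, hqU.2.le⟩
              · exact Or.inr h
            have := hC.subset_left_of_subset_union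
              (isOpen_lt (ori_cont _ _) continuous_const)
              (isOpen_lt continuous_const (ori_cont _ _))
              (Set.disjoint_left.mpr fun q h1 h2 =>
                lt_asymm (show ori (P 6) (P 5) q < 0 from h1) h2) hsub
              (by
                obtain ⟨q, hq, hq'⟩ := hne
                refine ⟨q, hq, ?_⟩
                rcases hsub hq with h | h
                · exact h
                · exact absurd (show ori (P 6) (P 5) q ≤ 0 from hq')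
                    (not_le.mpr (show 0 < ori (P 6) (P 5) q from h)))
            exact this.trans fun q hq => le_of_lt (show ori (P 6) (P 5) q < 0 from hq))
        rw [hp] at hN
        obtain ⟨ε, hε, hball⟩ := Metric.mem_nhds_iff.mp hN
        have hq : ((8 + ε / 2, 12) : ℝ × ℝ) ∈ Metric.ball (P 10) ε := by
          rw [P10, Metric.mem_ball, Prod.dist_eq]
          simp only [dist_self, Real.dist_eq, add_sub_cancel_left]
          rw [abs_of_pos (by linarith), max_eq_left (by linarith)]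
          linarith
        have := hball hq
        have h' : ori (P 6) (P 5) ((8 + ε / 2, 12) : ℝ × ℝ) ≤ 0 := this
        rw [eo] at h'
        simp only at h'
        linarith
    · obtain ⟨L₀, hL₀⟩ := hpiece 0 t le_rfl ht.2.le ht.1
        (fun r hr => hav r ⟨hr.1, hr.2.trans ht.2⟩ (hr.2.trans hst).ne hr.2.ne)
      obtain ⟨L₁, hL₁⟩ := hpiece t s ht.1.le hs.2.le hst
        (fun r hr => hav r ⟨ht.1.trans hr.1, hr.2.trans hs.2⟩ hr.2.ne hr.1.ne')
      obtain ⟨L₂, hL₂⟩ := hpiece s 1 hs.1.le le_rfl hs.2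
        (fun r hr => hav r ⟨hs.1.trans hr.1, hr.2⟩ hr.1.ne' (hst.trans hr.1).ne')
      have e1 := hstep l hl 0 t s le_rfl ht.1 hst hs.2.le htn (fun j hj hjl hm => by
        by_cases hjk : j = k
        · subst hjk; exact hst.ne (hsu t (Ioo_subset_Icc_self ht) hm)
        · exact hfree j hj (fun h => by rcases (hS j hj).mp h with h | h <;> contradiction) t ht hm)
        htx L₀ L₁ hL₀ hL₁
      have e2 := hstep k hk t s 1 ht.1.le hst hs.2 le_rfl hsn (fun j hj hjk hm => by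
        by_cases hjl : j = l
        · subst hjl; exact hst.ne' (htu s (Ioo_subset_Icc_self hs) hm)
        · exact hfree j hj (fun h => by rcases (hS j hj).mp h with h | h <;> contradiction) s hs hm)
        hsx L₁ L₂ hL₁ hL₂
      exact hno _ (hlab0 L₀ t ht.1 hL₀) _ (hlab1 L₂ s hs.2 hL₂) rfl rfl _ e1 _ e2 rfl rfl rfl
        (Or.inr ⟨rfl, rfl⟩)

/-! ### counting -/

theorem G_edges : G.edgeSet.ncard = 4 := by
  have h : G.edgeSet = (({s(0, 1), s(2, 3), s(4, 5), s(0, 5)} : Finset (Sym2 (Fin 6))) :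
      Set (Sym2 (Fin 6))) := by
    ext e
    rw [mem_edge]
    simp only [Finset.coe_insert, Finset.coe_singleton, mem_insert_iff, mem_singleton_iff]
    constructor
    · rintro ⟨k, hk, rfl⟩
      interval_cases k
      · exact Or.inl rfl
      · exact Or.inr (Or.inl rfl)
      · exact Or.inr (Or.inr (Or.inl rfl))
      · exact Or.inr (Or.inr (Or.inr rfl))
    · rintro (rfl | rfl | rfl | rfl)
      · exact ⟨0, by norm_num, rfl⟩
      · exact ⟨1, by norm_num, rfl⟩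
      · exact ⟨2, by norm_num, rfl⟩
      · exact ⟨3, by norm_num, rfl⟩
  rw [h, Set.ncard_coe_finset]
  decide

theorem G_noIsolated : ∀ v, ∃ w, G.Adj v w := by decide

end Pool.Agent.R30.Thr
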