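import Mathlib

set_option autoImplicit false

/-! Definitions: drawings of graphs in the plane, thrackles, maximal thrackles. -/

namespace Pool.Agent.R30.Thr

/-- The set `A` is a Jordan arc (simple arc) with ends `p` and `q`: the image of `[0,1]` under a
continuous injective parametrisation that starts at `p` and ends at `q`. -/
def IsArc (A : Set (ℝ × ℝ)) (p q : ℝ × ℝ) : Prop :=
  ∃ γ : ℝ → ℝ × ℝ, ContinuousOn γ (Set.Icc 0 1) ∧ Set.InjOn γ (Set.Icc 0 1) ∧
    γ 0 = p ∧ γ 1 = q ∧ γ '' Set.Icc 0 1 = A

/-- The sets `A` and `B` cross properly at `p`: some homeomorphism `φ` of an open neighbourhood of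
`p` onto an open subset of the plane maps `p` to the origin, the part of `A` in the neighbourhood
onto the part of the `x`-axis and the part of `B` in the neighbourhood onto the part of the
`y`-axis in the image. -/
def CrossesAt (A B : Set (ℝ × ℝ)) (p : ℝ × ℝ) : Prop :=
  ∃ φ : OpenPartialHomeomorph (ℝ × ℝ) (ℝ × ℝ), p ∈ φ.source ∧ φ p = (0, 0) ∧
    ∀ q ∈ φ.source, (q ∈ A ↔ (φ q).2 = 0) ∧ (q ∈ B ↔ (φ q).1 = 0)

/-- A drawing of the simple graph `G` in the plane `ℝ × ℝ`: the vertices are distinct points, each
edge is a Jordan arc joining its two ends, and no arc passes through a vertex other than its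
ends. -/
structure Drawing {V : Type} (G : SimpleGraph V) where
  /-- the point of a vertex -/
  pos : V → ℝ × ℝ
  /-- the arc of an edge (values at other pairs are irrelevant) -/
  arc : Sym2 V → Set (ℝ × ℝ)
  pos_injective : Function.Injective pos
  arc_isArc : ∀ u v, G.Adj u v → IsArc (arc s(u, v)) (pos u) (pos v)
  arc_avoids : ∀ u v w, G.Adj u v → pos w ∈ arc s(u, v) → w = u ∨ w = v

variable {V : Type} {G : SimpleGraph V}

/-- A thrackle: any two distinct edges have exactly one point in common, and this point is a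
common end of the two edges or a proper crossing of the two arcs. -/
def Drawing.IsThrackle (D : Drawing G) : Prop :=
  ∀ e ∈ G.edgeSet, ∀ f ∈ G.edgeSet, e ≠ f →
    ∃ p, D.arc e ∩ D.arc f = {p} ∧
      ((∃ v, v ∈ e ∧ v ∈ f ∧ p = D.pos v) ∨ CrossesAt (D.arc e) (D.arc f) p)

/-- A maximal thrackle: a thrackle such that for any two distinct non-adjacent vertices `u`, `v` no
drawing of `G + uv` that extends the given drawing (same points, same arcs for the old edges, an
arbitrary arc for `uv`) is a thrackle. -/
def Drawing.IsMaximalThrackle (D : Drawing G) : Prop :=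
  D.IsThrackle ∧ ∀ u v, u ≠ v → ¬ G.Adj u v →
    ∀ D' : Drawing (G ⊔ SimpleGraph.edge u v), D'.pos = D.pos →
      (∀ e ∈ G.edgeSet, D'.arc e = D.arc e) → ¬ D'.IsThrackle

end Pool.Agent.R30.Thr
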