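import Pool.Agent.R30.C4.Geom
import Pool.Agent.R30.Thr.Defs

set_option autoImplicit false

/-! Labelled triangulated pictures and proper crossings. -/

namespace Pool.Agent.R30.Thr

open Set Topology Pool.Agent.R30.C4

/-! ### a proper crossing cannot stay on one side -/

/-- If a curve `γ` crosses `A` properly at `γ t₀`, stays in the closed set `R` for all parameters
near `t₀`, and connected sets near `γ t₀` that avoid `A` and meet `R` lie in `R`, then `R` is a
neighbourhood of the crossing. -/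
lemma nhds_of_cross {γ : ℝ → ℝ × ℝ} (hcont : ContinuousOn γ (Icc 0 1))
    (hinj : InjOn γ (Icc 0 1)) {A : Set (ℝ × ℝ)} {t₀ δ : ℝ} (ht : t₀ ∈ Ioo (0 : ℝ) 1)
    (hδ : 0 < δ) (hx : CrossesAt A (γ '' Icc 0 1) (γ t₀)) {R U : Set (ℝ × ℝ)} (hR : IsClosed R)
    (hU : U ∈ 𝓝 (γ t₀))
    (hstay : ∀ t ∈ Icc (0 : ℝ) 1, |t - t₀| < δ → t ≠ t₀ → γ t ∈ R)
    (hconst : ∀ C : Set (ℝ × ℝ), IsPreconnected C → C ⊆ U → Disjoint C A → (C ∩ R).Nonempty →
      C ⊆ R) : R ∈ 𝓝 (γ t₀) := by
  obtain ⟨φ, hp, hp0, hq⟩ := hx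
  have ht' := Ioo_subset_Icc_self ht
  -- the far part of the curve
  set K := γ '' (Icc 0 1 ∩ {t | δ ≤ |t - t₀|}) with hK
  have hKc : IsCompact K := by
    apply IsCompact.image_of_continuousOn
    · apply isCompact_Icc.inter_right
      exact isClosed_le continuous_const (by fun_prop)
    · exact hcont.mono inter_subset_left
  have hKn : γ t₀ ∉ K := by
    rintro ⟨t, ⟨h1, h2⟩, h3⟩
    have := hinj h1 ht' h3
    subst this
    simp only [mem_ofPred_eq, sub_self, abs_zero] at h2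
    linarith
  -- a good open set
  obtain ⟨U', hU'U, hU'o, hU'p⟩ := mem_nhds_iff.mp hU
  set W := φ.source ∩ (U' ∩ Kᶜ) with hW
  have hWo : IsOpen W := φ.open_source.inter (hU'o.inter hKc.isClosed.isOpen_compl)
  have hWp : γ t₀ ∈ W := ⟨hp, hU'p, hKn⟩
  have hWs : W ⊆ φ.source := inter_subset_left
  have himg : IsOpen (φ '' W) := φ.isOpen_image_of_subset_source hWo hWs
  have h0 : ((0, 0) : ℝ × ℝ) ∈ φ '' W := ⟨_, hWp, hp0⟩
  obtain ⟨r, hr, hball⟩ := Metric.isOpen_iff.mp himg _ h0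
  -- the ball in the sup metric is a square
  set H : Set (ℝ × ℝ) := Metric.ball (0, 0) r with hH
  have hHW : ∀ z ∈ H, φ.symm z ∈ W ∧ z ∈ φ.target := by
    intro z hz
    obtain ⟨w, hw, rfl⟩ := hball hz
    rw [φ.left_inv (hWs hw)]
    exact ⟨hw, φ.map_source (hWs hw)⟩
  have hHt : H ⊆ φ.target := fun z hz => (hHW z hz).2
  have hHc : ContinuousOn φ.symm H := φ.continuousOn_symm.mono hHt
  have key : ∀ C : Set (ℝ × ℝ), IsPreconnected C → C ⊆ H → (∀ z ∈ C, z.2 ≠ 0) →
      (∃ z ∈ C, z.1 = 0) → φ.symm '' C ⊆ R := by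
    intro C hC hCH hC2 ⟨z, hz, hz1⟩
    apply hconst _ (hC.image _ (hHc.mono hCH))
    · rintro _ ⟨w, hw, rfl⟩
      exact hU'U (hHW w (hCH hw)).1.2.1
    · rw [Set.disjoint_left]
      rintro _ ⟨w, hw, rfl⟩ hA
      have hws := hWs (hHW w (hCH hw)).1
      have := (hq _ hws).1.mp hA
      rw [φ.right_inv (hHt (hCH hw))] at this
      exact hC2 w hw this
    · refine ⟨φ.symm z, ⟨z, hz, rfl⟩, ?_⟩
      have hzW := (hHW z (hCH hz)).1
      have hB : φ.symm z ∈ γ '' Icc 0 1 := by
        apply (hq _ (hWs hzW)).2.mpr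
        rw [φ.right_inv (hHt (hCH hz))]
        exact hz1
      obtain ⟨t, ht1, ht2⟩ := hB
      rw [← ht2]
      apply hstay t ht1
      · by_contra hcon
        push Not at hcon
        exact hzW.2.2 ⟨t, ⟨ht1, hcon⟩, ht2⟩
      · rintro rfl
        have h3 : φ (φ.symm z) = (0, 0) := by rw [← ht2]; exact hp0
        rw [φ.right_inv (hHt (hCH hz))] at h3
        exact hC2 z hz (by rw [h3])
  have hup : φ.symm '' (H ∩ {z | 0 < z.2}) ⊆ R := by
    apply key
    · apply Convex.isPreconnected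
      apply (convex_ball _ _).inter
      exact convex_halfSpace_gt (by constructor <;> simp) 0
    · exact inter_subset_left
    · intro z hz; exact (ne_of_gt hz.2)
    · refine ⟨(0, r / 2), ⟨?_, ?_⟩, rfl⟩
      · rw [hH, Metric.mem_ball, Prod.dist_eq]
        simp only [dist_self, dist_zero_right, Real.norm_eq_abs]
        rw [abs_of_pos (by linarith), max_eq_right (by linarith)]
        linarith
      · show (0 : ℝ) < r / 2
        linarith
  have hdn : φ.symm '' (H ∩ {z | z.2 < 0}) ⊆ R := by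
    apply key
    · apply Convex.isPreconnected
      apply (convex_ball _ _).inter
      exact convex_halfSpace_lt (by constructor <;> simp) 0
    · exact inter_subset_left
    · intro z hz; exact (ne_of_lt hz.2)
    · refine ⟨(0, -(r / 2)), ⟨?_, ?_⟩, rfl⟩
      · rw [hH, Metric.mem_ball, Prod.dist_eq]
        simp only [dist_self, dist_zero_right, Real.norm_eq_abs, abs_neg]
        rw [abs_of_pos (by linarith), max_eq_right (by linarith)]
        linarith
      · show -(r / 2) < (0 : ℝ)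
        linarith
  -- all of the square
  have hall : ∀ z ∈ H, φ.symm z ∈ R := by
    intro z hz
    rcases lt_trichotomy z.2 0 with h | h | h
    · exact hdn ⟨z, ⟨hz, h⟩, rfl⟩
    · -- limit of points above
      have hcz : ContinuousAt φ.symm z := hHc.continuousAt (Metric.isOpen_ball.mem_nhds hz)
      have hcl : z ∈ closure (H ∩ {z | 0 < z.2}) := by
        rw [Metric.mem_closure_iff]
        intro ε hε
        have hz' : dist z.1 0 < r := by
          rw [hH, Metric.mem_ball, Prod.dist_eq] at hz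
          exact (max_lt_iff.mp hz).1
        refine ⟨(z.1, min ε r / 2), ⟨?_, ?_⟩, ?_⟩
        · rw [hH, Metric.mem_ball, Prod.dist_eq]
          simp only [dist_zero_right, Real.norm_eq_abs]
          rw [abs_of_pos (by positivity : (0 : ℝ) < min ε r / 2)]
          apply max_lt
          · rw [← Real.norm_eq_abs, ← dist_zero_right]; exact hz'
          · have := min_le_right ε r; linarith
        · show (0 : ℝ) < min ε r / 2
          positivity
        · rw [Prod.dist_eq, h]
          simp only [dist_self, Real.dist_eq, zero_sub, abs_neg]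
          rw [abs_of_pos (by positivity : (0 : ℝ) < min ε r / 2),
            max_eq_right (by positivity)]
          have := min_le_left ε r; linarith
      have := hcz.continuousWithinAt.mem_closure_image hcl
      exact closure_minimal hup hR this
    · exact hup ⟨z, ⟨hz, h⟩, rfl⟩
  -- transport back
  have hopen : IsOpen (φ.symm '' H) :=
    φ.symm.isOpen_image_of_subset_source Metric.isOpen_ball hHt
  refine Filter.mem_of_superset (hopen.mem_nhds ?_) (image_subset_iff.mpr hall)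
  refine ⟨(0, 0), Metric.mem_ball_self hr, ?_⟩
  rw [← hp0, φ.left_inv hp]

/-! ### labelled pictures -/

/-- A picture with face labels. -/
structure LPic extends Pic where
  /-- label of a cell -/
  lab : ℕ → ℕ → ℕ → ℕ
  /-- label of the outer region -/
  olab : ℕ
  /-- sides that belong to edges -/
  rl : ℕ → ℕ → Prop
  lab_rot : ∀ a b c, cell a b c → lab b c a = lab a b c
  lab_mate : ∀ a b c d, cell a b c → cell b a d → ¬ rl a b → lab a b c = lab b a d
  lab_omate : ∀ a b c d, cell a b c → outs a b d → ¬ rl a b → lab a b c = olab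
  rl_symm : ∀ a b, rl a b → rl b a
  sep : ∀ a b c a' b' c', cell a b c → cell a' b' c' → lab a b c ≠ lab a' b' c' →
    Disjoint {p | 0 < ori (P a) (P b) p ∧ 0 < ori (P b) (P c) p ∧ 0 < ori (P c) (P a) p}
      (tri (P a') (P b') (P c'))
  osep : ∀ a b c a' b' c', cell a b c → outs a' b' c' →
    Disjoint {p | 0 < ori (P a) (P b) p ∧ 0 < ori (P b) (P c) p ∧ 0 < ori (P c) (P a) p}
      (otri (P a') (P b') (P c'))

/-- the open triangle -/
def otr (a b c : ℝ × ℝ) : Set (ℝ × ℝ) := {p | 0 < ori a b p ∧ 0 < ori b c p ∧ 0 < ori c a p}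

lemma ori_combo (a b p q : ℝ × ℝ) (t : ℝ) : ori a b ((1 - t) • p + t • q) =
    (1 - t) * ori a b p + t * ori a b q := by
  simp only [ori, Prod.fst_add, Prod.smul_fst, smul_eq_mul, Prod.snd_add, Prod.smul_snd]
  ring

/-- every point of a closed triangle is a limit of points of the open triangle -/
lemma mem_closure_otr {a b c p : ℝ × ℝ} (h : 0 < ori a b c) (hp : p ∈ tri a b c) :
    p ∈ closure (otr a b c) := by
  set g : ℝ × ℝ := ((a.1 + b.1 + c.1) / 3, (a.2 + b.2 + c.2) / 3) with hg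
  have g1 : ori a b g = ori a b c / 3 := by simp only [hg, ori]; ring
  have g2 : ori b c g = ori a b c / 3 := by simp only [hg, ori]; ring
  have g3 : ori c a g = ori a b c / 3 := by simp only [hg, ori]; ring
  have hcont : ContinuousAt (fun t : ℝ => (1 - t) • p + t • g) 0 := by fun_prop
  have hcl : (0 : ℝ) ∈ closure (Ioo (0 : ℝ) 1) := by
    rw [closure_Ioo (by norm_num)]; exact left_mem_Icc.mpr zero_le_one
  have := hcont.continuousWithinAt.mem_closure_image hcl
  simp only [sub_zero, one_smul, zero_smul, add_zero] at this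
  refine closure_mono ?_ this
  rintro _ ⟨t, ht, rfl⟩
  obtain ⟨p1, p2, p3⟩ := hp
  have e1 : 0 < t * (ori a b c / 3) := by have := ht.1; positivity
  have e2 : 0 ≤ 1 - t := by linarith [ht.2]
  refine ⟨?_, ?_, ?_⟩
  · rw [ori_combo, g1]; have : 0 ≤ (1 - t) * ori a b p := by positivity
    linarith
  · rw [ori_combo, g2]; have : 0 ≤ (1 - t) * ori b c p := by positivity
    linarith
  · rw [ori_combo, g3]; have : 0 ≤ (1 - t) * ori c a p := by positivity
    linarith

namespace LPic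

variable (X : LPic)

/-- the closed region with label `L` -/
def R (L : ℕ) : Set (ℝ × ℝ) :=
  {p | (∃ a b c, X.cell a b c ∧ X.lab a b c = L ∧ p ∈ tri (X.P a) (X.P b) (X.P c)) ∨
    (X.olab = L ∧ ∃ a b c, X.outs a b c ∧ p ∈ otri (X.P a) (X.P b) (X.P c))}

lemma isClosed_R (L : ℕ) : IsClosed (X.R L) := by
  have : X.R L = (⋃ a ∈ Set.Iio X.N, ⋃ b ∈ Set.Iio X.N, ⋃ c ∈ Set.Iio X.N,
      {p | (X.cell a b c ∧ X.lab a b c = L) ∧ p ∈ tri (X.P a) (X.P b) (X.P c)}) ∪
      ⋃ a ∈ Set.Iio X.N, ⋃ b ∈ Set.Iio X.N, ⋃ c ∈ Set.Iio X.N,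
      {p | (X.olab = L ∧ X.outs a b c) ∧ p ∈ otri (X.P a) (X.P b) (X.P c)} := by
    ext p
    simp only [R, mem_ofPred_eq, mem_union, mem_iUnion, mem_Iio, exists_prop]
    constructor
    · rintro (⟨a, b, c, h, hL, hp⟩ | ⟨hL, a, b, c, h, hp⟩)
      · obtain ⟨h1, h2, h3⟩ := X.cell_lt' h
        exact Or.inl ⟨a, h1, b, h2, c, h3, ⟨h, hL⟩, hp⟩
      · obtain ⟨h1, h2, h3⟩ := X.outs_lt' h
        exact Or.inr ⟨a, h1, b, h2, c, h3, ⟨hL, h⟩, hp⟩
    · rintro (⟨a, -, b, -, c, -, ⟨h, hL⟩, hp⟩ | ⟨a, -, b, -, c, -, ⟨hL, h⟩, hp⟩)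
      · exact Or.inl ⟨a, b, c, h, hL, hp⟩
      · exact Or.inr ⟨hL, a, b, c, h, hp⟩
  rw [this]
  have hc1 : ∀ a b c, IsClosed {p | (X.cell a b c ∧ X.lab a b c = L) ∧
      p ∈ tri (X.P a) (X.P b) (X.P c)} := by
    intro a b c
    by_cases h : X.cell a b c ∧ X.lab a b c = L
    · simpa [h] using isClosed_tri _ _ _
    · simp [h]
  have hc2 : ∀ a b c, IsClosed {p | (X.olab = L ∧ X.outs a b c) ∧
      p ∈ otri (X.P a) (X.P b) (X.P c)} := by
    intro a b c
    by_cases h : X.olab = L ∧ X.outs a b c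
    · simpa [h] using isClosed_otri _ _ _
    · simp [h]
  refine IsClosed.union ?_ ?_
  · exact (Set.finite_Iio _).isClosed_biUnion fun a _ => (Set.finite_Iio _).isClosed_biUnion
      fun b _ => (Set.finite_Iio _).isClosed_biUnion fun c _ => hc1 a b c
  · exact (Set.finite_Iio _).isClosed_biUnion fun a _ => (Set.finite_Iio _).isClosed_biUnion
      fun b _ => (Set.finite_Iio _).isClosed_biUnion fun c _ => hc2 a b c

lemma tri_sub_R {a b c : ℕ} (h : X.cell a b c) :
    tri (X.P a) (X.P b) (X.P c) ⊆ X.R (X.lab a b c) := fun _ hp => Or.inl ⟨a, b, c, h, rfl, hp⟩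
lemma otri_sub_R {a b c : ℕ} (h : X.outs a b c) :
    otri (X.P a) (X.P b) (X.P c) ⊆ X.R X.olab := fun _ hp => Or.inr ⟨rfl, a, b, c, h, hp⟩

/-- a point off the points and off the sides of edges is interior to its region -/
lemma R_nhds {L : ℕ} {p : ℝ × ℝ} (hR : p ∈ X.R L) (hp : p ∉ X.pts)
    (hs : ∀ a b, X.rl a b → p ∉ segment ℝ (X.P a) (X.P b)) : X.R L ∈ 𝓝 p := by
  have side : ∀ a b c, X.cell a b c → p ∈ segment ℝ (X.P a) (X.P b) → X.lab a b c = L →
      X.R L ∈ 𝓝 p := by
    intro a b c h hseg hL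
    have hnr : ¬ X.rl a b := fun hr => hs a b hr hseg
    obtain ⟨l1, l2, -⟩ := X.cell_lt' h
    have ha : p ≠ X.P a := fun e => hp (e ▸ X.mem_pts_of_lt l1)
    have hb : p ≠ X.P b := fun e => hp (e ▸ X.mem_pts_of_lt l2)
    rcases X.mate a b c h with ⟨d, hd⟩ | ⟨d, hd⟩
    · refine Filter.mem_of_superset (nhds_tt (X.cell_pos _ _ _ h) (X.cell_pos _ _ _ hd)
        hseg ha hb) (Set.union_subset ?_ ?_)
      · rw [← hL]; exact X.tri_sub_R h
      · rw [← hL, X.lab_mate a b c d h hd hnr]; exact X.tri_sub_R hd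
    · refine Filter.mem_of_superset (nhds_to (d := X.P d) (X.cell_pos _ _ _ h) hseg ha hb)
        (Set.union_subset ?_ ?_)
      · rw [← hL]; exact X.tri_sub_R h
      · rw [← hL, X.lab_omate a b c d h hd hnr]; exact X.otri_sub_R hd
  have oside : ∀ a b d, X.outs a b d → p ∈ segment ℝ (X.P a) (X.P b) → X.olab = L →
      X.R L ∈ 𝓝 p := by
    intro a b d hd hseg hL
    have hnr : ¬ X.rl a b := fun hr => hs a b hr hseg
    obtain ⟨c, h⟩ := X.omate _ _ _ hd
    exact side a b c h hseg (by rw [X.lab_omate a b c d h hd hnr, hL])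
  rcases hR with ⟨a, b, c, h, hL, hm⟩ | ⟨hL, a, b, c, h, hm⟩
  · have h' := X.cell_rot _ _ _ h
    have h'' := X.cell_rot _ _ _ h'
    have r1 := X.lab_rot _ _ _ h
    have r2 := X.lab_rot _ _ _ h'
    rcases X.tri_cases h hm with h1 | h1 | h1 | h1
    · exact Filter.mem_of_superset h1 (by rw [← hL]; exact X.tri_sub_R h)
    · exact side a b c h h1 hL
    · exact side b c a h' h1 (by rw [r1, hL])
    · exact side c a b h'' h1 (by rw [r2, r1, hL])
  · have h' := X.outs_rot _ _ _ h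
    have h'' := X.outs_rot _ _ _ h'
    rcases X.otri_cases h hm with h1 | h1 | h1 | h1
    · exact Filter.mem_of_superset h1 (by rw [← hL]; exact X.otri_sub_R h)
    · exact oside a b c h h1 hL
    · exact oside b c a h' h1 hL
    · exact oside c a b h'' h1 hL

/-- connected sets off the edges stay in one region -/
lemma const {C : Set (ℝ × ℝ)} (hC : IsPreconnected C) (hpts : ∀ p ∈ C, p ∉ X.pts)
    (hav : ∀ a b, X.rl a b → ∀ p ∈ C, p ∉ segment ℝ (X.P a) (X.P b)) {L : ℕ}
    (hne : (C ∩ X.R L).Nonempty) : C ⊆ X.R L :=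
  Pic.trapped_aux hC (X.isClosed_R L) hne fun p hp hR =>
    X.R_nhds hR (hpts p hp) fun a b hr => hav a b hr p hp

/-- every point has a label -/
lemma exists_label (p : ℝ × ℝ) : ∃ L, p ∈ X.R L := by
  have : p ∈ X.U := by rw [X.cover]; trivial
  rcases this with ⟨a, b, c, h, hp⟩ | ⟨a, b, c, h, hp⟩
  · exact ⟨_, X.tri_sub_R h hp⟩
  · exact ⟨_, X.otri_sub_R h hp⟩

/-- a region that contains points of an open cell has its label -/
lemma label_of_open {a b c L : ℕ} (h : X.cell a b c) {q : ℝ × ℝ}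
    (hq : q ∈ otr (X.P a) (X.P b) (X.P c)) (hR : q ∈ X.R L) : X.lab a b c = L := by
  rcases hR with ⟨a', b', c', h', hL, hm⟩ | ⟨hL, a', b', c', h', hm⟩
  · by_contra hne
    rw [← hL] at hne
    exact Set.disjoint_left.mp (X.sep _ _ _ _ _ _ h h' hne) hq hm
  · exact absurd hm (Set.disjoint_left.mp (X.osep _ _ _ _ _ _ h h') hq)

/-- if a region is a neighbourhood of a point of a closed cell then it has the cell's label -/
lemma label_of_nhds {a b c L : ℕ} (h : X.cell a b c) {p : ℝ × ℝ}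
    (hp : p ∈ tri (X.P a) (X.P b) (X.P c)) (hR : X.R L ∈ 𝓝 p) : X.lab a b c = L := by
  have hcl := mem_closure_otr (X.cell_pos _ _ _ h) hp
  obtain ⟨q, hq1, hq2⟩ := mem_closure_iff_nhds.mp hcl _ hR
  exact X.label_of_open h hq2 hq1

/-- some open cell is near every point that is not outside -/
lemma cell_near {p : ℝ × ℝ} {L : ℕ} (hR : p ∈ X.R L) {N : Set (ℝ × ℝ)} (hN : N ∈ 𝓝 p) :
    (∃ a b c, X.cell a b c ∧ X.lab a b c = L ∧ (N ∩ otr (X.P a) (X.P b) (X.P c)).Nonempty) ∨
    (X.olab = L ∧ ∃ a b c, X.outs a b c ∧ p ∈ otri (X.P a) (X.P b) (X.P c)) := by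
  rcases hR with ⟨a, b, c, h, hL, hm⟩ | h
  · left
    have hcl := mem_closure_otr (X.cell_pos _ _ _ h) hm
    obtain ⟨q, hq1, hq2⟩ := mem_closure_iff_nhds.mp hcl _ hN
    exact ⟨a, b, c, h, hL, q, hq1, hq2⟩
  · exact Or.inr h

end LPic

end Pool.Agent.R30.Thr
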