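import Pool.Agent.R30.Thr.Ex

set_option autoImplicit false

/-! Crossing an edge changes the label of the region by a listed transition. -/

namespace Pool.Agent.R30.Thr

open Set Topology Pool.Agent.R30.C4

attribute [local irreducible] cellsL outsL realL trL vlL

/-- the four arcs -/
noncomputable def A : ℕ → Set (ℝ × ℝ)
  | 0 => segment ℝ (P 0) (P 1)
  | 1 => segment ℝ (P 2) (P 3)
  | 2 => segment ℝ (P 4) (P 5)
  | _ => segment ℝ (P 0) (P 6) ∪ segment ℝ (P 6) (P 5)

lemma seg_split {a b m p : ℝ × ℝ} (hm : m ∈ segment ℝ a b) (hp : p ∈ segment ℝ a b) :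
    p ∈ segment ℝ a m ∨ p ∈ segment ℝ m b := by
  obtain ⟨s', s, hs', hs, hs1, rfl⟩ := hm
  obtain ⟨t', t, ht', ht, ht1, rfl⟩ := hp
  have e1 : s' = 1 - s := by linarith
  have e2 : t' = 1 - t := by linarith
  subst e1 e2
  rcases le_total t s with h | h
  · left
    rcases hs.eq_or_lt with h0 | h0
    · have : t = 0 := by linarith
      subst this
      simp only [sub_zero, one_smul, zero_smul, add_zero]
      exact left_mem_segment _ _ _
    · refine ⟨1 - t / s, t / s, ?_, by positivity, by ring, ?_⟩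
      · rw [sub_nonneg, div_le_one h0]; exact h
      · have : t = t / s * s := by field_simp
        conv_rhs => rw [this]
        module
  · right
    rcases hs'.eq_or_lt with h0 | h0
    · have : t = 1 := by linarith
      subst this
      simp only [sub_self, zero_smul, one_smul, zero_add]
      exact right_mem_segment _ _ _
    · have hr : (1 - t) / (1 - s) * (1 - s) = 1 - t := by field_simp
      refine ⟨(1 - t) / (1 - s), 1 - (1 - t) / (1 - s), by positivity, ?_, by ring, ?_⟩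
      · rw [sub_nonneg, div_le_one h0]; linarith
      · generalize (1 - t) / (1 - s) = r at hr
        have h2 : r • ((1 - s) • a + s • b) + (1 - r) • b =
            (r * (1 - s)) • a + (1 - r * (1 - s)) • b := by module
        rw [h2, hr, sub_sub_cancel]

/-- membership in a segment from a parameter -/
lemma mem_seg_of {a b p : ℝ × ℝ} (t : ℝ) (h0 : 0 ≤ t) (h1 : t ≤ 1)
    (hx : p.1 = (1 - t) * a.1 + t * b.1) (hy : p.2 = (1 - t) * a.2 + t * b.2) :
    p ∈ segment ℝ a b :=
  ⟨1 - t, t, by linarith, h0, by ring, by apply Prod.ext <;> simp [hx, hy]⟩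

lemma seg_mem {a b p : ℝ × ℝ} (h : p ∈ segment ℝ a b) : ∃ t : ℝ, 0 ≤ t ∧ t ≤ 1 ∧
    p.1 = (1 - t) * a.1 + t * b.1 ∧ p.2 = (1 - t) * a.2 + t * b.2 := by
  obtain ⟨s, t, hs, ht, hst, rfl⟩ := h
  refine ⟨t, ht, by linarith, ?_, ?_⟩
  · have : s = 1 - t := by linarith
    subst this; simp
  · have : s = 1 - t := by linarith
    subst this; simp

lemma P0 : P 0 = (-4, -4) := by simp [P, cx, cy]
lemma P1 : P 1 = (9, 9) := by simp [P, cx, cy]
lemma P2 : P 2 = (8, -1) := by simp [P, cx, cy]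
lemma P3 : P 3 = (8, 100) := by simp [P, cx, cy]
lemma P4 : P 4 = (-1, 0) := by simp [P, cx, cy]
lemma P5 : P 5 = (20, 0) := by simp [P, cx, cy]
lemma P6 : P 6 = (0, 20) := by simp [P, cx, cy]
lemma P7 : P 7 = (8, 8) := by simp [P, cx, cy]
lemma P8 : P 8 = (0, 0) := by simp [P, cx, cy]
lemma P9 : P 9 = (8, 0) := by simp [P, cx, cy]
lemma P10 : P 10 = (8, 12) := by simp [P, cx, cy]

/-- equations of the arcs -/
lemma memA0 {p : ℝ × ℝ} : p ∈ A 0 ↔ p.1 = p.2 ∧ -4 ≤ p.1 ∧ p.1 ≤ 9 := by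
  simp only [A, P0, P1]
  constructor
  · intro h
    obtain ⟨t, h0, h1, hx, hy⟩ := seg_mem h
    simp only at hx hy
    exact ⟨by linarith, by linarith, by linarith⟩
  · rintro ⟨h, h0, h1⟩
    refine mem_seg_of ((p.1 + 4) / 13) (by linarith) (by linarith) ?_ ?_ <;> simp only <;> linarith

lemma memA1 {p : ℝ × ℝ} : p ∈ A 1 ↔ p.1 = 8 ∧ -1 ≤ p.2 ∧ p.2 ≤ 100 := by
  simp only [A, P2, P3]
  constructor
  · intro h
    obtain ⟨t, h0, h1, hx, hy⟩ := seg_mem h
    simp only at hx hy
    exact ⟨by linarith, by linarith, by linarith⟩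
  · rintro ⟨h, h0, h1⟩
    refine mem_seg_of ((p.2 + 1) / 101) (by linarith) (by linarith) ?_ ?_ <;> simp only <;> linarith

lemma memA2 {p : ℝ × ℝ} : p ∈ A 2 ↔ p.2 = 0 ∧ -1 ≤ p.1 ∧ p.1 ≤ 20 := by
  simp only [A, P4, P5]
  constructor
  · intro h
    obtain ⟨t, h0, h1, hx, hy⟩ := seg_mem h
    simp only at hx hy
    exact ⟨by linarith, by linarith, by linarith⟩
  · rintro ⟨h, h0, h1⟩
    refine mem_seg_of ((p.1 + 1) / 21) (by linarith) (by linarith) ?_ ?_ <;> simp only <;> linarith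

lemma memA3 {p : ℝ × ℝ} : p ∈ A 3 ↔ (p.2 = 6 * p.1 + 20 ∧ -4 ≤ p.1 ∧ p.1 ≤ 0) ∨
    (p.1 + p.2 = 20 ∧ 0 ≤ p.1 ∧ p.1 ≤ 20) := by
  simp only [A, P0, P6, P5, mem_union]
  constructor
  · rintro (h | h)
    · obtain ⟨t, h0, h1, hx, hy⟩ := seg_mem h
      simp only at hx hy
      exact Or.inl ⟨by linarith, by linarith, by linarith⟩
    · obtain ⟨t, h0, h1, hx, hy⟩ := seg_mem h
      simp only at hx hy
      exact Or.inr ⟨by linarith, by linarith, by linarith⟩
  · rintro (⟨h, h0, h1⟩ | ⟨h, h0, h1⟩)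
    · left
      refine mem_seg_of ((p.1 + 4) / 4) (by linarith) (by linarith) ?_ ?_ <;> simp only <;> linarith
    · right
      refine mem_seg_of (p.1 / 20) (by linarith) (by linarith) ?_ ?_ <;> simp only <;> linarith

lemma isClosed_A (k : ℕ) : IsClosed (A k) := by
  have hseg : ∀ a b : ℝ × ℝ, IsClosed (segment ℝ a b) := by
    intro a b
    rw [segment_eq_image]
    exact (isCompact_Icc.image (by fun_prop)).isClosed
  match k with
  | 0 => exact hseg _ _
  | 1 => exact hseg _ _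
  | 2 => exact hseg _ _
  | (n + 3) => exact (hseg _ _).union (hseg _ _)

/-- the sides of the picture lie on the arcs -/
lemma real_sub {a b k : ℕ} (h : (a, b, k) ∈ realL) : segment ℝ (P a) (P b) ⊆ A k ∧ k < 4 := by
  have conv : ∀ {a b c d : ℕ}, P a ∈ segment ℝ (P c) (P d) → P b ∈ segment ℝ (P c) (P d) →
      segment ℝ (P a) (P b) ⊆ segment ℝ (P c) (P d) := fun h1 h2 =>
    (convex_segment _ _).segment_subset h1 h2
  have m0 : ∀ i ∈ [0, 8, 7, 1], P i ∈ A 0 := by
    intro i hi
    simp only [List.mem_cons, List.not_mem_nil, or_false] at hi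
    rw [memA0]
    rcases hi with rfl | rfl | rfl | rfl
    · rw [P0]; norm_num
    · rw [P8]; norm_num
    · rw [P7]; norm_num
    · rw [P1]; norm_num
  have m1 : ∀ i ∈ [2, 9, 7, 10, 3], P i ∈ A 1 := by
    intro i hi
    simp only [List.mem_cons, List.not_mem_nil, or_false] at hi
    rw [memA1]
    rcases hi with rfl | rfl | rfl | rfl | rfl
    · rw [P2]; norm_num
    · rw [P9]; norm_num
    · rw [P7]; norm_num
    · rw [P10]; norm_num
    · rw [P3]; norm_num
  have m2 : ∀ i ∈ [4, 8, 9, 5], P i ∈ A 2 := by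
    intro i hi
    simp only [List.mem_cons, List.not_mem_nil, or_false] at hi
    rw [memA2]
    rcases hi with rfl | rfl | rfl | rfl
    · rw [P4]; norm_num
    · rw [P8]; norm_num
    · rw [P9]; norm_num
    · rw [P5]; norm_num
  have m3 : ∀ i ∈ [6, 10, 5], P i ∈ segment ℝ (P 6) (P 5) := by
    intro i hi
    simp only [List.mem_cons, List.not_mem_nil, or_false] at hi
    rcases hi with rfl | rfl | rfl
    · exact left_mem_segment _ _ _
    · rw [P10, P6, P5]
      refine mem_seg_of (2 / 5) (by norm_num) (by norm_num) ?_ ?_ <;> norm_num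
    · exact right_mem_segment _ _ _
  rcases kreal _ h with ⟨rfl, h1, h2⟩ | ⟨rfl, h1, h2⟩ | ⟨rfl, h1, h2⟩ | ⟨rfl, h1, h2⟩ |
    ⟨rfl, h1 | h1⟩
  · exact ⟨conv (m0 _ h1) (m0 _ h2), by norm_num⟩
  · exact ⟨conv (m1 _ h1) (m1 _ h2), by norm_num⟩
  · exact ⟨conv (m2 _ h1) (m2 _ h2), by norm_num⟩
  · exact ⟨(conv (m3 _ h1) (m3 _ h2)).trans Set.subset_union_right, by norm_num⟩
  · obtain ⟨rfl, rfl⟩ := h1
    exact ⟨Set.subset_union_left, by norm_num⟩
  · obtain ⟨rfl, rfl⟩ := h1
    rw [segment_symm]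
    exact ⟨Set.subset_union_left, by norm_num⟩

/-- the points lie on the arcs -/
lemma pts_on {p : ℝ × ℝ} (h : p ∈ X.pts) : ∃ k < 4, p ∈ A k := by
  obtain ⟨i, hi, rfl⟩ := h
  obtain ⟨⟨a, b, k⟩, hz, rfl⟩ := kon i hi
  obtain ⟨h1, h2⟩ := real_sub hz
  exact ⟨k, h2, h1 (left_mem_segment _ _ _)⟩

/-- points of an arc lie on listed sides -/
lemma arc_side {k : ℕ} (hk : k < 4) {p : ℝ × ℝ} (hp : p ∈ A k) :
    ∃ a b, (a, b, k) ∈ realL ∧ p ∈ segment ℝ (P a) (P b) := by
  have r1 := kr' (0, 8, 0) (by simp)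
  have r2 := kr' (8, 7, 0) (by simp)
  have r3 := kr' (7, 1, 0) (by simp)
  have r4 := kr' (2, 9, 1) (by simp)
  have r5 := kr' (9, 7, 1) (by simp)
  have r6 := kr' (7, 10, 1) (by simp)
  have r7 := kr' (10, 3, 1) (by simp)
  have r8 := kr' (4, 8, 2) (by simp)
  have r9 := kr' (8, 9, 2) (by simp)
  have r10 := kr' (9, 5, 2) (by simp)
  have r11 := kr' (0, 6, 3) (by simp)
  have r12 := kr' (6, 10, 3) (by simp)
  have r13 := kr' (10, 5, 3) (by simp)
  have hs : ∀ {a m b : ℕ} (t : ℝ), 0 ≤ t → t ≤ 1 →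
      (P m).1 = (1 - t) * (P a).1 + t * (P b).1 → (P m).2 = (1 - t) * (P a).2 + t * (P b).2 →
      ∀ {p}, p ∈ segment ℝ (P a) (P b) → p ∈ segment ℝ (P a) (P m) ∨ p ∈ segment ℝ (P m) (P b) :=
    fun t h0 h1 hx hy _ hp => seg_split (mem_seg_of t h0 h1 hx hy) hp
  interval_cases k
  · have hp : p ∈ segment ℝ (P 0) (P 1) := hp
    rcases hs (m := 8) (4 / 13) (by norm_num) (by norm_num) (by rw [P0, P1, P8]; norm_num)
      (by rw [P0, P1, P8]; norm_num) hp with h | h
    · exact ⟨_, _, r1, h⟩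
    · rcases hs (m := 7) (8 / 9) (by norm_num) (by norm_num) (by rw [P8, P1, P7]; norm_num)
        (by rw [P8, P1, P7]; norm_num) h with h | h
      · exact ⟨_, _, r2, h⟩
      · exact ⟨_, _, r3, h⟩
  · have hp : p ∈ segment ℝ (P 2) (P 3) := hp
    rcases hs (m := 9) (1 / 101) (by norm_num) (by norm_num) (by rw [P2, P3, P9]; norm_num)
      (by rw [P2, P3, P9]; norm_num) hp with h | h
    · exact ⟨_, _, r4, h⟩
    · rcases hs (m := 7) (8 / 100) (by norm_num) (by norm_num) (by rw [P9, P3, P7]; norm_num)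
        (by rw [P9, P3, P7]; norm_num) h with h | h
      · exact ⟨_, _, r5, h⟩
      · rcases hs (m := 10) (4 / 92) (by norm_num) (by norm_num) (by rw [P7, P3, P10]; norm_num)
          (by rw [P7, P3, P10]; norm_num) h with h | h
        · exact ⟨_, _, r6, h⟩
        · exact ⟨_, _, r7, h⟩
  · have hp : p ∈ segment ℝ (P 4) (P 5) := hp
    rcases hs (m := 8) (1 / 21) (by norm_num) (by norm_num) (by rw [P4, P5, P8]; norm_num)
      (by rw [P4, P5, P8]; norm_num) hp with h | h
    · exact ⟨_, _, r8, h⟩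
    · rcases hs (m := 9) (8 / 20) (by norm_num) (by norm_num) (by rw [P8, P5, P9]; norm_num)
        (by rw [P8, P5, P9]; norm_num) h with h | h
      · exact ⟨_, _, r9, h⟩
      · exact ⟨_, _, r10, h⟩
  · have hp : p ∈ segment ℝ (P 0) (P 6) ∪ segment ℝ (P 6) (P 5) := hp
    rcases hp with hp | hp
    · exact ⟨_, _, r11, hp⟩
    · rcases hs (m := 10) (2 / 5) (by norm_num) (by norm_num) (by rw [P6, P5, P10]; norm_num)
        (by rw [P6, P5, P10]; norm_num) hp with h | h
      · exact ⟨_, _, r12, h⟩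
      · exact ⟨_, _, r13, h⟩

/-- label at a vertex or at the bend -/
lemma label_at {w L : ℕ} (hw : w < 7) (h : P w ∈ X.R L) : (w, L) ∈ vlL := by
  rcases h with ⟨a, b, c, hc, hL, hm⟩ | ⟨hL, a, b, c, hc, hm⟩
  · have hmem := lab_mem hc
    have hL' : lab a b c = L := hL
    rcases k_vl _ hmem w hw with ⟨-, h⟩ | h | h | h
    · rw [hL'] at h; exact h
    · exfalso
      have := hm.1
      have h' : ori (X.P a) (X.P b) (P w) = (oz a b w : ℝ) := ori_P a b w
      rw [h'] at this
      have h2 : (oz a b w : ℝ) < 0 := by exact_mod_cast h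
      linarith
    · exfalso
      have := hm.2.1
      have h' : ori (X.P b) (X.P c) (P w) = (oz b c w : ℝ) := ori_P b c w
      rw [h'] at this
      have h2 : (oz b c w : ℝ) < 0 := by exact_mod_cast h
      linarith
    · exfalso
      have := hm.2.2
      have h' : ori (X.P c) (X.P a) (P w) = (oz c a w : ℝ) := ori_P c a w
      rw [h'] at this
      have h2 : (oz c a w : ℝ) < 0 := by exact_mod_cast h
      linarith
  · have hL' : 1 = L := hL
    subst hL'
    rcases k_ovl _ hc w hw with ⟨-, h⟩ | ⟨h1, h2, h3⟩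
    · exact h
    · exfalso
      have e1 : ori (X.P a) (X.P b) (P w) = (oz a b w : ℝ) := ori_P a b w
      have e2 : ori (X.P b) (X.P c) (P w) = (oz b c w : ℝ) := ori_P b c w
      have e3 : ori (X.P c) (X.P a) (P w) = (oz c a w : ℝ) := ori_P c a w
      have g1 : (0 : ℝ) < (oz a b w : ℝ) := by exact_mod_cast h1
      have g2 : (0 : ℝ) < (oz b c w : ℝ) := by exact_mod_cast h2
      have g3 : (0 : ℝ) < (oz c a w : ℝ) := by exact_mod_cast h3
      rcases hm with h0 | h0 | h0 <;> linarith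

/-- a relatively interior point of a side of an edge is strictly inside the outer triangle -/
lemma side_inside {a b k : ℕ} (h : (a, b, k) ∈ realL) {p : ℝ × ℝ}
    (hp : p ∈ segment ℝ (P a) (P b)) (ha : p ≠ P a) (hb : p ≠ P b) {x y z : ℕ}
    (ho : Outs x y z) : p ∉ otri (P x) (P y) (P z) := by
  obtain ⟨s, t, hs, ht, hst, rfl⟩ := seg_params hp ha hb
  have key : ∀ x y z, (x, y, z) ∈ outsL →
      0 < ori (P x) (P y) (s * (P a).1 + t * (P b).1, s * (P a).2 + t * (P b).2) := by
    intro x y z hxyz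
    obtain ⟨e1, e2, e3⟩ := k_rin _ h _ hxyz
    have e : ori (P x) (P y) (s * (P a).1 + t * (P b).1, s * (P a).2 + t * (P b).2) =
        s * ori (P x) (P y) (P a) + t * ori (P x) (P y) (P b) := by
      have : s = 1 - t := by linarith
      subst this; simp only [ori]; ring
    rw [e, ori_P, ori_P]
    simp only at e1 e2 e3
    have g1 : (0 : ℝ) ≤ (oz x y a : ℝ) := by exact_mod_cast e1
    have g2 : (0 : ℝ) ≤ (oz x y b : ℝ) := by exact_mod_cast e2
    have g3 : (0 : ℝ) < (oz x y a : ℝ) + (oz x y b : ℝ) := by exact_mod_cast e3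
    rcases g1.eq_or_lt with h0 | h0
    · have : (0 : ℝ) < (oz x y b : ℝ) := by linarith
      have : 0 < t * (oz x y b : ℝ) := by positivity
      rw [← h0]; linarith
    · have : 0 < s * (oz x y a : ℝ) := by positivity
      have : 0 ≤ t * (oz x y b : ℝ) := by positivity
      linarith
  have h1 := k_orot _ ho
  have h2 := k_orot _ h1
  rintro (h0 | h0 | h0)
  · have := key _ _ _ ho; linarith
  · have := key _ _ _ h1; linarith
  · have := key _ _ _ h2; linarith

/-- The crossing lemma. -/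
lemma cross_label {γ : ℝ → ℝ × ℝ} (hcont : ContinuousOn γ (Icc 0 1)) (hinj : InjOn γ (Icc 0 1))
    {k : ℕ} (hk : k < 4) {t₀ δ : ℝ} (ht : t₀ ∈ Ioo (0 : ℝ) 1) (hδ : 0 < δ)
    (hon : γ t₀ ∈ A k) (hoff : ∀ j < 4, j ≠ k → γ t₀ ∉ A j) (hvert : ∀ w < 6, γ t₀ ≠ P w)
    (hx : CrossesAt (A k) (γ '' Icc 0 1) (γ t₀)) {L₁ L₂ : ℕ}
    (h1 : ∀ t ∈ Icc (0 : ℝ) 1, t < t₀ → t₀ - t < δ → γ t ∈ X.R L₁)
    (h2 : ∀ t ∈ Icc (0 : ℝ) 1, t₀ < t → t - t₀ < δ → γ t ∈ X.R L₂)
    (hp1 : γ t₀ ∈ X.R L₁) (hp2 : γ t₀ ∈ X.R L₂) : (k, L₁, L₂) ∈ trL := by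
  -- if the labels agree, the region is a neighbourhood
  have hsame : L₁ = L₂ → X.R L₁ ∈ 𝓝 (γ t₀) := by
    rintro rfl
    have hU : (⋂ j ∈ ({j | j < 4 ∧ j ≠ k} : Set ℕ), (A j)ᶜ) ∈ 𝓝 (γ t₀) := by
      have hfin : ({j | j < 4 ∧ j ≠ k} : Set ℕ).Finite :=
        (Set.finite_lt_nat 4).subset fun j hj => hj.1
      rw [Filter.biInter_mem hfin]
      intro j hj
      exact (isClosed_A j).isOpen_compl.mem_nhds (hoff j hj.1 hj.2)
    refine nhds_of_cross hcont hinj ht hδ hx (X.isClosed_R _) hU ?_ ?_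
    · intro t ht1 ht2 ht3
      rcases lt_or_gt_of_ne ht3 with h | h
      · apply h1 t ht1 h
        rw [abs_sub_comm, abs_of_pos (by linarith)] at ht2; exact ht2
      · apply h2 t ht1 h
        rw [abs_of_pos (by linarith)] at ht2; exact ht2
    · intro C hC hCU hCA hne
      have hall : ∀ p ∈ C, ∀ j < 4, p ∉ A j := by
        intro p hp j hj hpj
        by_cases h : j = k
        · subst h; exact Set.disjoint_left.mp hCA hp hpj
        · have := hCU hp
          simp only [mem_iInter, mem_compl_iff, mem_ofPred_eq, and_imp] at this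
          exact this j hj h hpj
      refine X.const hC ?_ ?_ hne
      · intro p hp hpp
        obtain ⟨j, hj, hpj⟩ := pts_on hpp
        exact hall p hp j hj hpj
      · rintro a b ⟨j, hj⟩ p hp hps
        obtain ⟨g1, g2⟩ := real_sub hj
        exact hall p hp j g2 (g1 hps)
  obtain ⟨a, b, hab, hseg⟩ := arc_side hk hon
  by_cases hpts : γ t₀ ∈ X.pts
  · -- the bend
    obtain ⟨i, hi, hieq⟩ := hpts
    have hieq : P i = γ t₀ := hieq
    rcases ktwo i hi with h | rfl | ⟨⟨z1, z2, z3⟩, hz, ⟨z1', z2', z3'⟩, hz', e1, e2, e3⟩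
    · exact absurd hieq.symm (hvert i h)
    · -- p = P 6, so k = 3
      have hk3 : k = 3 := by
        by_contra hne
        refine hoff 3 (by norm_num) (fun h => hne h.symm) ?_
        rw [← hieq, memA3, P6]; norm_num
      subst hk3
      rw [← hieq] at hp1 hp2 hsame
      have v1 := label_at (by norm_num) hp1
      have v2 := label_at (by norm_num) hp2
      have ktr := ktr3
      have hne : L₁ ≠ L₂ := by
        intro he
        have hn := hsame he
        have c1 := kc1
        have g1 := X.label_of_nhds (a := 0) (b := 6) (c := 3) ⟨1, c1.1⟩ (p := P 6)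
          (by
            refine ⟨?_, ?_, ?_⟩
            · show 0 ≤ ori (P 0) (P 6) (P 6); rw [ori_self₂]
            · show 0 ≤ ori (P 6) (P 3) (P 6); rw [ori_self₁]
            · show 0 ≤ ori (P 3) (P 0) (P 6)
              have := cell_pos 3 0 6 (cell_rot _ _ _ (cell_rot _ _ _ ⟨1, c1.1⟩)); exact this.le) hn
        have g2 := X.label_of_nhds (a := 0) (b := 4) (c := 6) ⟨2, c1.2⟩ (p := P 6)
          (by
            refine ⟨?_, ?_, ?_⟩
            · show 0 ≤ ori (P 0) (P 4) (P 6)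
              have := cell_pos 0 4 6 ⟨2, c1.2⟩; exact this.le
            · show 0 ≤ ori (P 4) (P 6) (P 6); rw [ori_self₂]
            · show 0 ≤ ori (P 6) (P 0) (P 6); rw [ori_self₁]) hn
        have g1' : lab 0 6 3 = L₁ := g1
        have g2' : lab 0 4 6 = L₁ := g2
        rw [lab_eq c1.1] at g1'
        rw [lab_eq c1.2] at g2'
        omega
      have w1 := kv _ v1 rfl
      have w2 := kv _ v2 rfl
      simp only at w1 w2
      rcases w1 with rfl | rfl <;> rcases w2 with rfl | rfl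
      · exact absurd rfl hne
      · exact ktr.1
      · exact ktr.2
      · exact absurd rfl hne
    · exfalso
      simp only at e1 e2 e3
      subst e1
      subst e2
      have m1 : γ t₀ ∈ A z3 := by
        rw [← hieq]; exact (real_sub hz).1 (left_mem_segment _ _ _)
      have m2 : γ t₀ ∈ A z3' := by
        rw [← hieq]; exact (real_sub hz').1 (left_mem_segment _ _ _)
      by_cases h3 : z3 = k
      · exact hoff z3' (real_sub hz').2 (fun h => e3 (h3.trans h.symm)) m2
      · exact hoff z3 (real_sub hz).2 h3 m1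
  · -- relatively interior point of a side
    have ha : γ t₀ ≠ P a := by
      intro h
      apply hpts
      rw [h]
      obtain ⟨⟨x1, x2, x3, x4⟩, hx, -, -, e1, -⟩ := k_tr _ hab
      simp only at e1; subst e1
      exact X.mem_pts_of_lt (k_lt _ hx)
    have hb : γ t₀ ≠ P b := by
      intro h
      apply hpts
      rw [h]
      obtain ⟨⟨x1, x2, x3, x4⟩, hx, -, -, -, e1, -⟩ := k_tr _ hab
      simp only at e1; subst e1
      exact X.mem_pts_of_lt (k_lt _ (k_rot _ hx))
    obtain ⟨⟨x1, x2, c, l1⟩, hc, ⟨y1, y2, d, l2⟩, hd, e1, e2, e3, e4, t1, t2⟩ := k_tr _ hab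
    simp only at e1 e2 e3 e4 t1 t2
    rw [e1, e2] at hc
    rw [e3, e4] at hd
    have hC : Cell a b c := ⟨_, hc⟩
    have hD : Cell b a d := ⟨_, hd⟩
    have hN := nhds_tt (cell_pos _ _ _ hC) (cell_pos _ _ _ hD) hseg ha hb
    have mC : γ t₀ ∈ tri (P a) (P b) (P c) := by
      obtain ⟨k1, k2⟩ := seg_ori_pos (cell_pos _ _ _ hC) hseg ha hb
      exact ⟨(seg_ori hseg).ge, k1.le, k2.le⟩
    have mD : γ t₀ ∈ tri (P b) (P a) (P d) := by
      have hseg' : γ t₀ ∈ segment ℝ (P b) (P a) := by rw [segment_symm]; exact hseg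
      obtain ⟨k1, k2⟩ := seg_ori_pos (cell_pos _ _ _ hD) hseg' hb ha
      exact ⟨(seg_ori hseg').ge, k1.le, k2.le⟩
    have cand : ∀ L, γ t₀ ∈ X.R L → L = l1 ∨ L = l2 := by
      intro L hL
      rcases X.cell_near hL hN with ⟨a', b', c', hc', hl', q, hq1, hq2⟩ | ⟨-, a', b', c', ho, hm⟩
      · rcases hq1 with hq1 | hq1
        · left
          have := X.label_of_open hc' hq2 (X.tri_sub_R (a := a) (b := b) (c := c) hC hq1)
          have h3 : lab a b c = l1 := lab_eq hc
          rw [hl'] at this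
          rw [this]; exact h3
        · right
          have := X.label_of_open hc' hq2 (X.tri_sub_R (a := b) (b := a) (c := d) hD hq1)
          have h3 : lab b a d = l2 := lab_eq hd
          rw [hl'] at this
          rw [this]; exact h3
      · exact absurd hm (side_inside hab hseg ha hb ho)
    by_cases he : L₁ = L₂
    · have hn := hsame he
      have g1 : lab a b c = L₁ := X.label_of_nhds (a := a) (b := b) (c := c) hC mC hn
      have g2 : lab b a d = L₁ := X.label_of_nhds (a := b) (b := a) (c := d) hD mD hn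
      rw [lab_eq hc] at g1
      rw [lab_eq hd] at g2
      subst he g1
      subst g2
      exact t1
    · rcases cand _ hp1 with rfl | rfl <;> rcases cand _ hp2 with rfl | rfl
      · exact absurd rfl he
      · exact t1
      · exact t2
      · exact absurd rfl he

end Pool.Agent.R30.Thr
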