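import Pool.Agent.R30.Thr.LPic

set_option autoImplicit false

/-! The picture of the example: a thrackle with six vertices and four edges. -/

namespace Pool.Agent.R30.Thr

open Set Topology Pool.Agent.R30.C4

/-- coordinates -/
def cx (i : ℕ) : ℤ := ([-4, 9, 8, 8, -1, 20, 0, 8, 0, 8, 8] : List ℤ).getD i 0
/-- coordinates -/
def cy (i : ℕ) : ℤ := ([-4, 9, -1, 100, 0, 0, 20, 8, 0, 0, 12] : List ℤ).getD i 0

/-- cells with rotations and labels -/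
def cellsL : List (ℕ × ℕ × ℕ × ℕ) :=
  [(0, 5, 2, 1), (5, 2, 0, 1), (2, 0, 5, 1), (0, 2, 8, 1), (2, 8, 0, 1), (8, 0, 2, 1),
   (0, 6, 3, 1), (6, 3, 0, 1), (3, 0, 6, 1), (0, 4, 6, 2), (4, 6, 0, 2), (6, 0, 4, 2),
   (0, 8, 4, 2), (8, 4, 0, 2), (4, 0, 8, 2), (1, 9, 5, 0), (9, 5, 1, 0), (5, 1, 9, 0),
   (1, 5, 10, 0), (5, 10, 1, 0), (10, 1, 5, 0), (1, 7, 9, 0), (7, 9, 1, 0), (9, 1, 7, 0),
   (1, 10, 7, 0), (10, 7, 1, 0), (7, 1, 10, 0), (2, 5, 9, 1), (5, 9, 2, 1), (9, 2, 5, 1),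
   (2, 9, 8, 1), (9, 8, 2, 1), (8, 2, 9, 1), (3, 10, 5, 1), (10, 5, 3, 1), (5, 3, 10, 1),
   (3, 6, 10, 1), (6, 10, 3, 1), (10, 3, 6, 1), (4, 7, 6, 2), (7, 6, 4, 2), (6, 4, 7, 2),
   (4, 8, 7, 2), (8, 7, 4, 2), (7, 4, 8, 2), (6, 7, 10, 2), (7, 10, 6, 2), (10, 6, 7, 2),
   (7, 8, 9, 3), (8, 9, 7, 3), (9, 7, 8, 3)]

/-- the outer triangle -/
def outsL : List (ℕ × ℕ × ℕ) := [(0, 5, 3), (5, 3, 0), (3, 0, 5)]

/-- directed sides on edges, with the number of the edge -/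
def realL : List (ℕ × ℕ × ℕ) :=
  [(0, 8, 0), (8, 0, 0), (8, 7, 0), (7, 8, 0), (7, 1, 0), (1, 7, 0),
   (2, 9, 1), (9, 2, 1), (9, 7, 1), (7, 9, 1), (7, 10, 1), (10, 7, 1), (10, 3, 1), (3, 10, 1),
   (4, 8, 2), (8, 4, 2), (8, 9, 2), (9, 8, 2), (9, 5, 2), (5, 9, 2),
   (0, 6, 3), (6, 0, 3), (6, 10, 3), (10, 6, 3), (10, 5, 3), (5, 10, 3)]

/-- transitions between labels when an edge is crossed -/
def trL : List (ℕ × ℕ × ℕ) :=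
  [(0, 1, 2), (0, 2, 1), (0, 2, 3), (0, 3, 2), (0, 0, 0),
   (1, 1, 1), (1, 0, 3), (1, 3, 0), (1, 0, 2), (1, 2, 0),
   (2, 2, 2), (2, 1, 3), (2, 3, 1), (2, 0, 1), (2, 1, 0),
   (3, 1, 2), (3, 2, 1), (3, 0, 1), (3, 1, 0)]

/-- labels of the regions at a vertex or at the bend `6` -/
def vlL : List (ℕ × ℕ) :=
  [(0, 1), (0, 2), (1, 0), (2, 1), (3, 1), (4, 2), (5, 0), (5, 1), (6, 1), (6, 2)]

/-- integer orientation -/
def oz (a b c : ℕ) : ℤ := (cx b - cx a) * (cy c - cy a) - (cy b - cy a) * (cx c - cx a)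

lemma k_pos : ∀ x ∈ cellsL, 0 < oz x.1 x.2.1 x.2.2.1 := by decide +kernel
lemma k_opos : ∀ x ∈ outsL, 0 < oz x.1 x.2.1 x.2.2 := by decide +kernel
lemma k_rot : ∀ x ∈ cellsL, (x.2.1, x.2.2.1, x.1, x.2.2.2) ∈ cellsL := by decide +kernel
lemma k_orot : ∀ x ∈ outsL, (x.2.1, x.2.2, x.1) ∈ outsL := by decide +kernel
lemma k_lt : ∀ x ∈ cellsL, x.1 < 11 := by decide +kernel
lemma k_olt : ∀ x ∈ outsL, x.1 < 11 := by decide +kernel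
lemma k_mate : ∀ x ∈ cellsL, (∃ y ∈ cellsL, y.1 = x.2.1 ∧ y.2.1 = x.1) ∨
    ∃ y ∈ outsL, y.1 = x.1 ∧ y.2.1 = x.2.1 := by decide +kernel
lemma k_omate : ∀ x ∈ outsL, ∃ y ∈ cellsL, y.1 = x.1 ∧ y.2.1 = x.2.1 := by decide +kernel
lemma k_uniq : ∀ x ∈ cellsL, ∀ y ∈ cellsL, x.1 = y.1 → x.2.1 = y.2.1 → x.2.2.1 = y.2.2.1 →
    x.2.2.2 = y.2.2.2 := by decide +kernel
lemma k_labmate : ∀ x ∈ cellsL, ∀ y ∈ cellsL, y.1 = x.2.1 → y.2.1 = x.1 →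
    x.2.2.2 = y.2.2.2 ∨ ∃ z ∈ realL, z.1 = x.1 ∧ z.2.1 = x.2.1 := by decide +kernel
lemma k_olabmate : ∀ x ∈ cellsL, ∀ y ∈ outsL, y.1 = x.1 → y.2.1 = x.2.1 →
    x.2.2.2 = 1 ∨ ∃ z ∈ realL, z.1 = x.1 ∧ z.2.1 = x.2.1 := by decide +kernel
lemma k_rsymm : ∀ z ∈ realL, (z.2.1, z.1, z.2.2) ∈ realL := by decide +kernel
/-- separation of cells with different labels -/
lemma k_sep : ∀ x ∈ cellsL, ∀ y ∈ cellsL, x.2.2.2 ≠ y.2.2.2 →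
    ((oz x.1 x.2.1 y.1 ≤ 0 ∧ oz x.1 x.2.1 y.2.1 ≤ 0 ∧ oz x.1 x.2.1 y.2.2.1 ≤ 0) ∨
     (oz x.2.1 x.2.2.1 y.1 ≤ 0 ∧ oz x.2.1 x.2.2.1 y.2.1 ≤ 0 ∧ oz x.2.1 x.2.2.1 y.2.2.1 ≤ 0) ∨
     (oz x.2.2.1 x.1 y.1 ≤ 0 ∧ oz x.2.2.1 x.1 y.2.1 ≤ 0 ∧ oz x.2.2.1 x.1 y.2.2.1 ≤ 0)) ∨
    ((oz y.1 y.2.1 x.1 ≤ 0 ∧ oz y.1 y.2.1 x.2.1 ≤ 0 ∧ oz y.1 y.2.1 x.2.2.1 ≤ 0) ∨
     (oz y.2.1 y.2.2.1 x.1 ≤ 0 ∧ oz y.2.1 y.2.2.1 x.2.1 ≤ 0 ∧ oz y.2.1 y.2.2.1 x.2.2.1 ≤ 0) ∨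
     (oz y.2.2.1 y.1 x.1 ≤ 0 ∧ oz y.2.2.1 y.1 x.2.1 ≤ 0 ∧ oz y.2.2.1 y.1 x.2.2.1 ≤ 0)) := by
  decide +kernel
/-- inner cells lie in the outer triangle -/
lemma k_osep : ∀ x ∈ cellsL, ∀ y ∈ outsL, 0 ≤ oz y.1 y.2.1 x.1 ∧ 0 ≤ oz y.1 y.2.1 x.2.1 ∧
    0 ≤ oz y.1 y.2.1 x.2.2.1 ∧
    0 < oz y.1 y.2.1 x.1 + oz y.1 y.2.1 x.2.1 + oz y.1 y.2.1 x.2.2.1 := by decide +kernel

/-- labels at points -/
lemma k_vl : ∀ x ∈ cellsL, ∀ w < 7, ((w = x.1 ∨ w = x.2.1 ∨ w = x.2.2.1) ∧ (w, x.2.2.2) ∈ vlL) ∨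
    oz x.1 x.2.1 w < 0 ∨ oz x.2.1 x.2.2.1 w < 0 ∨ oz x.2.2.1 x.1 w < 0 := by decide +kernel
lemma k_ovl : ∀ x ∈ outsL, ∀ w < 7, ((w = x.1 ∨ w = x.2.1 ∨ w = x.2.2) ∧ (w, 1) ∈ vlL) ∨
    (0 < oz x.1 x.2.1 w ∧ 0 < oz x.2.1 x.2.2 w ∧ 0 < oz x.2.2 x.1 w) := by decide +kernel

/-- sides of edges have two cells and the labels are transitions -/
lemma k_tr : ∀ z ∈ realL, ∃ x ∈ cellsL, ∃ y ∈ cellsL, x.1 = z.1 ∧ x.2.1 = z.2.1 ∧ y.1 = z.2.1 ∧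
    y.2.1 = z.1 ∧ (z.2.2, x.2.2.2, y.2.2.2) ∈ trL ∧ (z.2.2, y.2.2.2, x.2.2.2) ∈ trL := by
  decide +kernel
/-- sides of edges are not on the boundary of the outer triangle -/
lemma k_rin : ∀ z ∈ realL, ∀ y ∈ outsL, 0 ≤ oz y.1 y.2.1 z.1 ∧ 0 ≤ oz y.1 y.2.1 z.2.1 ∧
    0 < oz y.1 y.2.1 z.1 + oz y.1 y.2.1 z.2.1 := by decide +kernel

lemma kreal : ∀ z ∈ realL, (z.2.2 = 0 ∧ z.1 ∈ [0, 8, 7, 1] ∧ z.2.1 ∈ [0, 8, 7, 1]) ∨
    (z.2.2 = 1 ∧ z.1 ∈ [2, 9, 7, 10, 3] ∧ z.2.1 ∈ [2, 9, 7, 10, 3]) ∨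
    (z.2.2 = 2 ∧ z.1 ∈ [4, 8, 9, 5] ∧ z.2.1 ∈ [4, 8, 9, 5]) ∨
    (z.2.2 = 3 ∧ z.1 ∈ [6, 10, 5] ∧ z.2.1 ∈ [6, 10, 5]) ∨
    (z.2.2 = 3 ∧ ((z.1 = 0 ∧ z.2.1 = 6) ∨ (z.1 = 6 ∧ z.2.1 = 0))) := by decide +kernel
lemma kon : ∀ i < 11, ∃ z ∈ realL, z.1 = i := by decide +kernel
lemma kr' : ∀ z ∈ [(0, 8, 0), (8, 7, 0), (7, 1, 0), (2, 9, 1), (9, 7, 1), (7, 10, 1),
    (10, 3, 1), (4, 8, 2), (8, 9, 2), (9, 5, 2), (0, 6, 3), (6, 10, 3), (10, 5, 3)],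
    z ∈ realL := by decide +kernel
lemma ktwo : ∀ i < 11, i < 6 ∨ i = 6 ∨ ∃ z ∈ realL, ∃ z' ∈ realL, z.1 = i ∧ z'.1 = i ∧
    z.2.2 ≠ z'.2.2 := by decide +kernel
lemma kv : ∀ x ∈ vlL, x.1 = 6 → x.2 = 1 ∨ x.2 = 2 := by decide +kernel
lemma ktr3 : (3, 1, 2) ∈ trL ∧ (3, 2, 1) ∈ trL := by decide +kernel
lemma kc1 : (0, 6, 3, 1) ∈ cellsL ∧ (0, 4, 6, 2) ∈ cellsL := by decide +kernel

/-- the points -/
noncomputable def P (i : ℕ) : ℝ × ℝ := ((cx i : ℝ), (cy i : ℝ))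

lemma ori_P (a b c : ℕ) : ori (P a) (P b) (P c) = (oz a b c : ℝ) := by
  simp only [ori, P, oz]; push_cast; ring

/-- cells -/
def Cell (a b c : ℕ) : Prop := ∃ L, (a, b, c, L) ∈ cellsL
/-- outer triangle -/
def Outs (a b c : ℕ) : Prop := (a, b, c) ∈ outsL
/-- label of a cell -/
noncomputable def lab (a b c : ℕ) : ℕ := by
  classical exact if h : Cell a b c then h.choose else 0

lemma lab_eq {a b c L : ℕ} (h : (a, b, c, L) ∈ cellsL) : lab a b c = L := by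
  classical
  have hc : Cell a b c := ⟨L, h⟩
  unfold lab
  rw [dif_pos hc]
  exact k_uniq _ hc.choose_spec _ h rfl rfl rfl

lemma lab_mem {a b c : ℕ} (h : Cell a b c) : (a, b, c, lab a b c) ∈ cellsL := by
  obtain ⟨L, hL⟩ := h
  rw [lab_eq hL]; exact hL

/-- sides of edges -/
def Rl (a b : ℕ) : Prop := ∃ k, (a, b, k) ∈ realL

lemma cell_rot (a b c : ℕ) (h : Cell a b c) : Cell b c a := by
  obtain ⟨L, hL⟩ := h; exact ⟨L, k_rot _ hL⟩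

lemma cell_pos (a b c : ℕ) (h : Cell a b c) : 0 < ori (P a) (P b) (P c) := by
  obtain ⟨L, hL⟩ := h
  rw [ori_P]; exact_mod_cast k_pos _ hL

lemma outs_pos (a b c : ℕ) (h : Outs a b c) : 0 < ori (P a) (P b) (P c) := by
  rw [ori_P]; exact_mod_cast k_opos _ h

/-- affine combination -/
lemma bary (a b c x y q : ℝ × ℝ) : ori a b c * ori x y q =
    ori b c q * ori x y a + ori c a q * ori x y b + ori a b q * ori x y c := by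
  simp only [ori]; ring

lemma tri_le {a b c x y q : ℝ × ℝ} (h : 0 < ori a b c) (ha : ori x y a ≤ 0) (hb : ori x y b ≤ 0)
    (hc : ori x y c ≤ 0) (hq : q ∈ tri a b c) : ori x y q ≤ 0 := by
  obtain ⟨h1, h2, h3⟩ := hq
  have := bary a b c x y q
  have e1 : ori b c q * ori x y a ≤ 0 := mul_nonpos_of_nonneg_of_nonpos h2 ha
  have e2 : ori c a q * ori x y b ≤ 0 := mul_nonpos_of_nonneg_of_nonpos h3 hb
  have e3 : ori a b q * ori x y c ≤ 0 := mul_nonpos_of_nonneg_of_nonpos h1 hc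
  by_contra hcon
  push Not at hcon
  have : 0 < ori a b c * ori x y q := mul_pos h hcon
  linarith

lemma otr_pos {a b c x y q : ℝ × ℝ} (h : 0 < ori a b c) (ha : 0 ≤ ori x y a) (hb : 0 ≤ ori x y b)
    (hc : 0 ≤ ori x y c) (hs : 0 < ori x y a + ori x y b + ori x y c) (hq : q ∈ otr a b c) :
    0 < ori x y q := by
  obtain ⟨h1, h2, h3⟩ := hq
  have := bary a b c x y q
  have e1 : 0 ≤ ori b c q * ori x y a := by positivity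
  have e2 : 0 ≤ ori c a q * ori x y b := by positivity
  have e3 : 0 ≤ ori a b q * ori x y c := by positivity
  have : 0 < ori a b c * ori x y q := by
    rw [this]
    rcases ha.eq_or_lt with h0 | h0
    · rcases hb.eq_or_lt with h0' | h0'
      · have : 0 < ori x y c := by linarith
        have : 0 < ori a b q * ori x y c := by positivity
        linarith
      · have : 0 < ori c a q * ori x y b := by positivity
        linarith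
    · have : 0 < ori b c q * ori x y a := by positivity
      linarith
  exact (mul_pos_iff_of_pos_left h).mp this

lemma isOpen_otr (a b c : ℝ × ℝ) : IsOpen (otr a b c) := by
  have : otr a b c = {p | 0 < ori a b p} ∩ ({p | 0 < ori b c p} ∩ {p | 0 < ori c a p}) := by
    ext p; simp [otr]
  rw [this]
  exact (isOpen_lt continuous_const (ori_cont _ _)).inter
    ((isOpen_lt continuous_const (ori_cont _ _)).inter
      (isOpen_lt continuous_const (ori_cont _ _)))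

lemma otr_sub_tri (a b c : ℝ × ℝ) : otr a b c ⊆ tri a b c := fun _ h => ⟨h.1.le, h.2.1.le, h.2.2.le⟩

lemma sep_cells (a b c a' b' c' : ℕ) (h : Cell a b c) (h' : Cell a' b' c')
    (hne : lab a b c ≠ lab a' b' c') :
    Disjoint (otr (P a) (P b) (P c)) (tri (P a') (P b') (P c')) := by
  rw [Set.disjoint_left]
  intro q hq hq'
  -- a point in both open triangles
  have hcl := mem_closure_otr (cell_pos _ _ _ h') hq'
  obtain ⟨r, hr1, hr2⟩ := mem_closure_iff_nhds.mp hcl _ ((isOpen_otr _ _ _).mem_nhds hq)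
  have hr1' := otr_sub_tri _ _ _ hr1
  have hr2' := otr_sub_tri _ _ _ hr2
  have hp := cell_pos _ _ _ h
  have hp' := cell_pos _ _ _ h'
  have key := k_sep _ (lab_mem h) _ (lab_mem h') hne
  have cast : ∀ {x y z : ℕ}, oz x y z ≤ 0 → ori (P x) (P y) (P z) ≤ 0 := by
    intro x y z hz; rw [ori_P]; exact_mod_cast hz
  simp only at key
  rcases key with (⟨k1, k2, k3⟩ | ⟨k1, k2, k3⟩ | ⟨k1, k2, k3⟩) |
    (⟨k1, k2, k3⟩ | ⟨k1, k2, k3⟩ | ⟨k1, k2, k3⟩)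
  · have := tri_le hp' (cast k1) (cast k2) (cast k3) hr2'; linarith [hr1.1]
  · have := tri_le hp' (cast k1) (cast k2) (cast k3) hr2'; linarith [hr1.2.1]
  · have := tri_le hp' (cast k1) (cast k2) (cast k3) hr2'; linarith [hr1.2.2]
  · have := tri_le hp (cast k1) (cast k2) (cast k3) hr1'; linarith [hr2.1]
  · have := tri_le hp (cast k1) (cast k2) (cast k3) hr1'; linarith [hr2.2.1]
  · have := tri_le hp (cast k1) (cast k2) (cast k3) hr1'; linarith [hr2.2.2]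

lemma sep_outs (a b c a' b' c' : ℕ) (h : Cell a b c) (h' : Outs a' b' c') :
    Disjoint (otr (P a) (P b) (P c)) (otri (P a') (P b') (P c')) := by
  rw [Set.disjoint_left]
  intro q hq hq'
  have hp := cell_pos _ _ _ h
  have h'' := k_orot _ h'
  have h''' := k_orot _ h''
  obtain ⟨L, hL⟩ := h
  have key : ∀ x y z, (x, y, z) ∈ outsL → 0 < ori (P x) (P y) q := by
    intro x y z hxyz
    obtain ⟨e1, e2, e3, e4⟩ := k_osep _ hL _ hxyz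
    simp only at e1 e2 e3 e4
    refine otr_pos hp ?_ ?_ ?_ ?_ hq
    · rw [ori_P]; exact_mod_cast e1
    · rw [ori_P]; exact_mod_cast e2
    · rw [ori_P]; exact_mod_cast e3
    · rw [ori_P, ori_P, ori_P]; exact_mod_cast e4
  rcases hq' with h0 | h0 | h0
  · have := key _ _ _ h'; linarith
  · have := key _ _ _ h''; linarith
  · have := key _ _ _ h'''; linarith

/-- the picture -/
noncomputable def X : LPic where
  P := P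
  N := 11
  cell := Cell
  outs := Outs
  cell_rot := cell_rot
  outs_rot := fun a b c h => k_orot _ h
  cell_lt := fun a b c ⟨_, hL⟩ => k_lt _ hL
  outs_lt := fun a b c h => k_olt _ h
  cell_pos := cell_pos
  outs_pos := outs_pos
  mate := by
    rintro a b c ⟨L, hL⟩
    rcases k_mate _ hL with ⟨⟨y1, y2, y3, y4⟩, hy, e1, e2⟩ | ⟨⟨y1, y2, y3⟩, hy, e1, e2⟩
    · simp only at e1 e2; subst e1 e2; exact Or.inl ⟨y3, y4, hy⟩
    · simp only at e1 e2; subst e1 e2; exact Or.inr ⟨y3, hy⟩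
  omate := by
    intro a b c h
    obtain ⟨⟨y1, y2, y3, y4⟩, hy, e1, e2⟩ := k_omate _ h
    simp only at e1 e2; subst e1 e2; exact ⟨y3, y4, hy⟩
  some_outs := ⟨0, 5, 3, by simp [Outs, outsL]⟩
  lab := lab
  olab := 1
  rl := Rl
  lab_rot := by
    rintro a b c ⟨L, hL⟩
    rw [lab_eq hL, lab_eq (k_rot _ hL)]
  lab_mate := by
    rintro a b c d ⟨L, hL⟩ ⟨L', hL'⟩ hn
    rw [lab_eq hL, lab_eq hL']
    rcases k_labmate _ hL _ hL' rfl rfl with h | ⟨⟨z1, z2, z3⟩, hz, e1, e2⟩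
    · exact h
    · simp only at e1 e2; subst e1 e2; exact absurd ⟨z3, hz⟩ hn
  lab_omate := by
    rintro a b c d ⟨L, hL⟩ h hn
    rw [lab_eq hL]
    rcases k_olabmate _ hL _ h rfl rfl with h | ⟨⟨z1, z2, z3⟩, hz, e1, e2⟩
    · exact h
    · simp only at e1 e2; subst e1 e2; exact absurd ⟨z3, hz⟩ hn
  rl_symm := by
    rintro a b ⟨k, hk⟩
    exact ⟨k, k_rsymm _ hk⟩
  sep := sep_cells
  osep := sep_outs

end Pool.Agent.R30.Thr
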